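import Pool.Agent.helper14.AU.Spec

set_option autoImplicit false

namespace Pool.Agent.helper14.AU

theorem TS2_swap (a b c : Pt) : area a b c = area b a c := by
  unfold area
  rw [show (a.1 - b.1) * (c.2 - b.2) - (c.1 - b.1) * (a.2 - b.2) =
    -((b.1 - a.1) * (c.2 - a.2) - (c.1 - a.1) * (b.2 - a.2)) by ring, abs_neg]

theorem TS2_mk (p : ℕ → Pt) (i j f : ℕ) :
    area (p (mk i j f).1) (p (mk i j f).2.1) (p (mk i j f).2.2) = area (p i) (p j) (p f) := by
  unfold mk
  rcases le_total i j with h | h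
  · simp only [min_eq_left h, max_eq_right h]
  · simp only [min_eq_right h, max_eq_left h]
    exact TS2_swap _ _ _

/-- the fresh points of one item -/
theorem TS2_item (hCG : CG_stmt) (N0 b : ℕ) (it : Item) (hok : ItOk N0 it)
    (P : ℕ → Pt) (A : ℕ × ℕ × ℕ → ℝ) (hA : ∀ t ∈ trip b it, 0 ≤ A t)
    (hG : Give P |A (mk it.2.1 it.2.2.1 b)| |A (mk it.2.2.1 it.2.2.2 b)| it) :
    ∃ F : ℕ → Pt, ∀ p : ℕ → Pt, (∀ n < N0, p n = P n) → (∀ c < 5, p (b + c) = F c) →
      ∀ t ∈ trip b it, area (p t.1) (p t.2.1) (p t.2.2) = A t := by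
  obtain ⟨h1, h2, h3, _, _, _⟩ := hok
  obtain ⟨c1, c2, c3⟩ := hCG
  unfold trip at hA ⊢
  unfold Give at hG
  split_ifs at hA hG ⊢ with k0 k1 k2
  · -- Col
    have a1 := hA _ (List.mem_cons_self)
    have a2 := hA _ (List.mem_cons_of_mem _ List.mem_cons_self)
    have a3 := hA _ (List.mem_cons_of_mem _ (List.mem_cons_of_mem _ List.mem_cons_self))
    have a4 := hA _ (List.mem_cons_of_mem _ (List.mem_cons_of_mem _ (List.mem_cons_of_mem _
      List.mem_cons_self)))
    have a5 := hA _ (List.mem_cons_of_mem _ (List.mem_cons_of_mem _ (List.mem_cons_of_mem _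
      (List.mem_cons_of_mem _ List.mem_cons_self))))
    have a6 := hA _ (List.mem_cons_of_mem _ (List.mem_cons_of_mem _ (List.mem_cons_of_mem _
      (List.mem_cons_of_mem _ (List.mem_cons_of_mem _ List.mem_cons_self)))))
    obtain ⟨f, g, h, o, o', q1, q2, q3, q4, q5, q6⟩ :=
      c1 _ _ _ hG.1 hG.2 _ _ _ _ _ _ a1 a2 a3 a4 a5 a6
    refine ⟨fun c => if c = 0 then f else if c = 1 then g else if c = 2 then h else
      if c = 3 then o else o', ?_⟩
    intro p hp hF t ht
    have f0 := hF 0 (by norm_num)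
    have f1 := hF 1 (by norm_num)
    have f2 := hF 2 (by norm_num)
    have f3 := hF 3 (by norm_num)
    have f4 := hF 4 (by norm_num)
    simp only [add_zero, if_true] at f0
    norm_num at f1 f2 f3 f4
    simp only [List.mem_cons, List.not_mem_nil, or_false] at ht
    rcases ht with rfl | rfl | rfl | rfl | rfl | rfl
    · rw [TS2_mk, hp _ h1, hp _ h2, f0]; exact q1
    · rw [TS2_mk, hp _ h1, hp _ h2, f1]; exact q2
    · dsimp only; rw [hp _ h3, f0, f2]; exact q3
    · dsimp only; rw [hp _ h3, f1, f2]; exact q4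
    · dsimp only; rw [f0, f1, f3]; exact q5
    · dsimp only; rw [hp _ h3, f2, f4]; exact q6
  · -- Neq
    have a1 := hA _ (List.mem_cons_self)
    obtain ⟨o, q1⟩ := c2 _ _ hG _ a1
    refine ⟨fun _ => o, ?_⟩
    intro p hp hF t ht
    have f0 := hF 0 (by norm_num)
    simp only [add_zero] at f0
    simp only [List.mem_cons, List.not_mem_nil, or_false] at ht
    subst ht
    rw [TS2_mk, hp _ h1, hp _ h2, f0]; exact q1
  · -- NC
    have a1 := hA _ (List.mem_cons_self)
    have a2 := hA _ (List.mem_cons_of_mem _ List.mem_cons_self)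
    have a3 := hA _ (List.mem_cons_of_mem _ (List.mem_cons_of_mem _ List.mem_cons_self))
    obtain ⟨s1, s2, q1, q2, q3⟩ := c3 _ _ _ hG _ _ _ a1 a2 a3
    refine ⟨fun c => if c = 0 then s1 else s2, ?_⟩
    intro p hp hF t ht
    have f0 := hF 0 (by norm_num)
    have f1 := hF 1 (by norm_num)
    simp only [add_zero, if_true] at f0
    norm_num at f1
    simp only [List.mem_cons, List.not_mem_nil, or_false] at ht
    rcases ht with rfl | rfl | rfl
    · rw [TS2_mk, hp _ h1, hp _ h2, f0]; exact q1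
    · rw [TS2_mk, hp _ h1, hp _ h3, f1]; exact q2
    · dsimp only; rw [hp _ h1, f0, f1]; exact q3
  · -- Meas
    have a1 := hA _ (List.mem_cons_self)
    have a2 := hA _ (List.mem_cons_of_mem _ List.mem_cons_self)
    obtain ⟨F, q1, q2⟩ := hG
    rw [abs_of_nonneg a1] at q1
    rw [abs_of_nonneg a2] at q2
    refine ⟨fun _ => F, ?_⟩
    intro p hp hF t ht
    have f0 := hF 0 (by norm_num)
    simp only [add_zero] at f0
    simp only [List.mem_cons, List.not_mem_nil, or_false] at ht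
    rcases ht with rfl | rfl
    · rw [TS2_mk, hp _ h1, hp _ h2, f0]; exact q1
    · rw [TS2_mk, hp _ h2, hp _ h3, f0]; exact q2

theorem TS2 (hCG : CG_stmt) : TS2_stmt := by
  classical
  intro N0 G it hok H A hA
  have hmem : ∀ g < G, ∀ t ∈ trip (N0 + 5 * g) (it g), t ∈ sysT N0 G it := by
    intro g hg t ht
    unfold sysT
    rw [List.mem_flatMap]
    exact ⟨g, List.mem_range.2 hg, ht⟩
  obtain ⟨P, hP⟩ := H (fun g => |A (mk (it g).2.1 (it g).2.2.1 (N0 + 5 * g))|)
    (fun g => |A (mk (it g).2.2.1 (it g).2.2.2 (N0 + 5 * g))|)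
    (fun g => ⟨abs_nonneg _, abs_nonneg _⟩)
  have hF : ∀ g : ℕ, ∃ F : ℕ → Pt, g < G → ∀ p : ℕ → Pt, (∀ n < N0, p n = P n) →
      (∀ c < 5, p (N0 + 5 * g + c) = F c) →
      ∀ t ∈ trip (N0 + 5 * g) (it g), area (p t.1) (p t.2.1) (p t.2.2) = A t := by
    intro g
    by_cases hg : g < G
    · obtain ⟨F, hF⟩ := TS2_item hCG N0 (N0 + 5 * g) (it g) (hok g hg) P A
        (fun t ht => hA t (hmem g hg t ht)) (hP g hg)
      exact ⟨F, fun _ => hF⟩
    · exact ⟨fun _ => (0, 0), fun h => absurd h hg⟩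
  choose F hF using hF
  refine ⟨fun n => if n < N0 then P n else F ((n - N0) / 5) ((n - N0) % 5), ?_⟩
  intro t ht
  unfold sysT at ht
  rw [List.mem_flatMap] at ht
  obtain ⟨g, hg, ht⟩ := ht
  rw [List.mem_range] at hg
  refine hF g hg (fun n => if n < N0 then P n else F ((n - N0) / 5) ((n - N0) % 5)) ?_ ?_ t ht
  · intro n hn
    rw [if_pos hn]
  · intro c hc
    rw [if_neg (by omega)]
    have e1 : (N0 + 5 * g + c - N0) / 5 = g := by omega
    have e2 : (N0 + 5 * g + c - N0) % 5 = c := by omega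
    rw [e1, e2]

end Pool.Agent.helper14.AU
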