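import Pool.Agent.helper87.AU.GDefs

/-!
# Project au (MP_97532f_ag), geometric part: automorphisms acting on places
-/

namespace Pool.Agent.helper53.AU

open scoped Classical

noncomputable section

variable {k F : Type} [Field k] [Field F] [Algebra k F]

/-- the action of automorphisms on places: `(s • P).ord f = P.ord (s⁻¹ f)` -/
instance placeAction : MulAction (F ≃ₐ[k] F) (Place k F) where
  smul s P :=
    { ord := fun f => P.ord (s.symm f)
      ord_zero := by simp [P.ord_zero]
      ord_mul := fun a b ha hb => by
        rw [map_mul]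
        exact P.ord_mul _ _ (by simpa using ha) (by simpa using hb)
      ord_add := fun a b ha hb hab => by
        have h0 : s.symm a + s.symm b ≠ 0 := by
          rw [← map_add]
          exact fun h => hab ((map_eq_zero s.symm).mp h)
        rw [map_add]
        exact P.ord_add _ _ (by simpa using ha) (by simpa using hb) h0
      ord_const := fun c hc => by
        rw [AlgEquiv.commutes]
        exact P.ord_const c hc
      exists_uniformizer := by
        obtain ⟨t, ht, ht1⟩ := P.exists_uniformizer
        exact ⟨s t, by simpa using ht, by simpa using ht1⟩ }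
  one_smul P := by
    ext f
    rfl
  mul_smul s s' P := by
    ext f
    rfl

theorem smul_ord (s : F ≃ₐ[k] F) (P : Place k F) (f : F) : (s • P).ord f = P.ord (s.symm f) := rfl

theorem smul_ord_apply (s : F ≃ₐ[k] F) (P : Place k F) (f : F) : (s • P).ord (s f) = P.ord f := by
  rw [smul_ord, AlgEquiv.symm_apply_apply]

/-- an automorphism fixing a place preserves its orders -/
theorem ord_apply_of_smul_eq {s : F ≃ₐ[k] F} {P : Place k F} (h : s • P = P) (f : F) :
    P.ord (s f) = P.ord f := by
  conv_lhs => rw [← h]
  exact smul_ord_apply s P f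

theorem smul_ge (s : F ≃ₐ[k] F) (P : Place k F) (n : ℤ) (f : F) :
    (s • P).Ge n (s f) ↔ P.Ge n f := by
  unfold Place.Ge
  rw [smul_ord_apply]
  simp

theorem ge_apply_of_smul_eq {s : F ≃ₐ[k] F} {P : Place k F} (h : s • P = P) (n : ℤ) (f : F) :
    P.Ge n (s f) ↔ P.Ge n f := by
  conv_lhs => rw [← h]
  exact smul_ge s P n f

namespace Place

/-- the ramification jump `i` of `s` at `P`: `ord (s t - t) = i + 1` -/
def jump (P : Place k F) (s : F ≃ₐ[k] F) : ℕ := (P.ord (s P.unif - P.unif) - 1).toNat

/-- the character on the cotangent line: `s t = θ t + ...` (uniquely determined when `s` fixes `P`) -/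
def theta (P : Place k F) (s : F ≃ₐ[k] F) : k :=
  if h : ∃ c : k, P.Ge 2 (s P.unif - algebraMap k F c * P.unif) then h.choose else 1

/-- the leading coefficient of a wild element: `s t = t + a t ^ (i + 1) + ...` -/
def lcoef (P : Place k F) (s : F ≃ₐ[k] F) : k :=
  if h : ∃ a : k, P.Ge ((P.jump s : ℤ) + 2)
    (s P.unif - P.unif - algebraMap k F a * P.unif ^ (P.jump s + 1)) then h.choose else 0

end Place

/-- `Q` is the place of the intermediate field `E` below `P`, with ramification index `e` -/
def Below (E : IntermediateField k F) (P : Place k F) (Q : Place k E) (e : ℕ) : Prop :=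
  0 < e ∧ ∀ f : E, P.ord (f : F) = e * Q.ord f

/-- the number of elements of `H` fixing the place `P` -/
def stabCard (H : Subgroup (F ≃ₐ[k] F)) (P : Place k F) : ℕ := Nat.card {s : H // (s : F ≃ₐ[k] F) • P = P}

end

end Pool.Agent.helper53.AU
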