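import Pool.Agent.helper87.AU.SpecQ1
import Pool.Agent.helper87.AU.GDefs2
import Pool.Agent.helper53.AU.SpecTop

/-!
# Project au (MP_97532f_ag), geometric part, specification 2:
# automorphisms, local facts, fixed fields, Riemann-Hurwitz, Herbrand, the term of `Ram`

Rules: file `Pool/Agent/<seat>/AU/XX.lean`, `import Pool.Agent.helper87.AU.SpecQ2`,
`namespace Pool.Agent.helper53.AU`, `theorem XX (h : YY_stmt) ... : XX_stmt`; all statements of SpecQ1 and SpecQ2
may be hypotheses. API of the action on places (`smul_ord`, `ord_apply_of_smul_eq`, ...) in `GDefs2.lean`.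
-/

namespace Pool.Agent.helper53.AU

open scoped Classical IntermediateField
open IntermediateField (fixedField)

noncomputable section

/-! ## F: local facts -/

/-- QF1: the jump.
Proof: `t = P.unif`, `s t - t ∈ Ge 1`. If `s t - t ∈ Ge (i + 1)` then `s f - f ∈ Ge (i + 1)` for `f ∈ O_P`: expand
`f = c_0 + ... + c_j t^j + t^(j+1) h` (QV1), `j ≥ i`. If `s t = t` this gives `s f = f` for all `f ∈ O_P`, so for all `f`, so `s = 1`. For
`f = t^m v`: `s f - f = (s t)^m (s v - v) + t^m ((s t / t)^m - 1) v` and `(1 + w)^m - 1 ∈ Ge i` for `w = s t / t - 1 ∈ Ge i`. For another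
uniformiser `t' = t v`: `s t' - t' = (s t - t) s v + t (s v - v)`, the second term has larger order. -/
def QF1_stmt : Prop := ∀ (k F : Type) [Field k] [IsAlgClosed k] [Field F] [Algebra k F], IsFF k F →
  ∀ (P : Place k F) (s : F ≃ₐ[k] F), s • P = P → s ≠ 1 →
    (∀ t : F, P.Unif t → s t - t ≠ 0 ∧ P.ord (s t - t) = (P.jump s : ℤ) + 1) ∧
    ∀ (m : ℤ) (f : F), P.Ge m f → P.Ge (m + P.jump s) (s f - f)

/-- QF2: the character `theta`. (`s t / t` is a unit at `P`, `theta` its residue, QV1; `jump ≥ 1` iff `s t - t ∈ Ge 2`.) -/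
def QF2_stmt : Prop := ∀ (k F : Type) [Field k] [IsAlgClosed k] [Field F] [Algebra k F], IsFF k F →
  ∀ (P : Place k F) (s : F ≃ₐ[k] F), s • P = P →
    P.theta s ≠ 0 ∧ (∀ c : k, P.Ge 2 (s P.unif - algebraMap k F c * P.unif) ↔ c = P.theta s) ∧
    (∀ (m : ℤ) (b : k) (f : F), P.Ge (m + 1) (f - algebraMap k F b * P.unif ^ m) →
      P.Ge (m + 1) (s f - algebraMap k F (b * P.theta s ^ m) * P.unif ^ m)) ∧
    (P.theta s = 1 ↔ s = 1 ∨ 1 ≤ P.jump s)

/-- QF3: formal properties of `theta` and `jump` (QF1, QF2; `a t` is a uniformiser at `a • P`). -/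
def QF3_stmt : Prop := ∀ (k F : Type) [Field k] [IsAlgClosed k] [Field F] [Algebra k F], IsFF k F →
  ∀ P : Place k F,
    (∀ s s' : F ≃ₐ[k] F, s • P = P → s' • P = P → P.theta (s * s') = P.theta s * P.theta s') ∧
    (∀ a s : F ≃ₐ[k] F, s • P = P → (a • P).theta (a * s * a⁻¹) = P.theta s ∧
      (a • P).jump (a * s * a⁻¹) = P.jump s) ∧
    (∀ s : F ≃ₐ[k] F, s • P = P → P.jump s⁻¹ = P.jump s) ∧
    (∀ s s' : F ≃ₐ[k] F, s • P = P → s' • P = P → s ≠ 1 → s' ≠ 1 → s * s' ≠ 1 →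
      min (P.jump s) (P.jump s') ≤ P.jump (s * s'))

/-- QF4: leading coefficients: `f = b t^m + ...` gives `s f - f = m b a t^(m + i) + ...`.
Proof: `f' = f - b t^m ∈ Ge (m + 1)`, `s f' - f' ∈ Ge (m + 1 + i)` (QF1); `s (t^m) - t^m = t^m ((1 + w)^m - 1)`,
`w = s t / t - 1 = a t^i + ...`, `(1 + w)^m - 1 = m w + Ge (2 i)` and `2 i ≥ i + 1`. -/
def QF4_stmt : Prop := ∀ (k F : Type) [Field k] [IsAlgClosed k] [Field F] [Algebra k F], IsFF k F →
  ∀ (P : Place k F) (s : F ≃ₐ[k] F), s • P = P → s ≠ 1 → 1 ≤ P.jump s →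
    P.lcoef s ≠ 0 ∧
    (∀ a : k, P.Ge ((P.jump s : ℤ) + 2)
      (s P.unif - P.unif - algebraMap k F a * P.unif ^ (P.jump s + 1)) ↔ a = P.lcoef s) ∧
    ∀ (m : ℤ) (b : k) (f : F), P.Ge (m + 1) (f - algebraMap k F b * P.unif ^ m) →
      P.Ge (m + P.jump s + 1)
        (s f - f - algebraMap k F ((m : k) * b * P.lcoef s) * P.unif ^ (m + P.jump s))

/-- QF5: the leading coefficient is additive on elements with the same jump, and
`a(c s c⁻¹) = theta(c)^i a(s)`. Proof: `s s' t - t = s (s' t - t) + (s t - t)` (QF4); second part: `τ = c⁻¹ t = theta(c)⁻¹ t + ...`,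
`s τ - τ = theta(c)⁻¹ a t^(i+1) + ...` (QF4), apply `c` (QF2). -/
def QF5_stmt : Prop := ∀ (k F : Type) [Field k] [IsAlgClosed k] [Field F] [Algebra k F], IsFF k F →
  ∀ P : Place k F,
    (∀ s s' : F ≃ₐ[k] F, s • P = P → s' • P = P → s ≠ 1 → s' ≠ 1 → 1 ≤ P.jump s →
      P.jump s' = P.jump s →
      (P.lcoef s + P.lcoef s' = 0 → s * s' = 1 ∨ P.jump s < P.jump (s * s')) ∧
      (P.lcoef s + P.lcoef s' ≠ 0 → s * s' ≠ 1 ∧ P.jump (s * s') = P.jump s ∧
        P.lcoef (s * s') = P.lcoef s + P.lcoef s')) ∧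
    (∀ c s : F ≃ₐ[k] F, c • P = P → s • P = P → s ≠ 1 → 1 ≤ P.jump s →
      P.lcoef (c * s * c⁻¹) = P.theta c ^ (P.jump s) * P.lcoef s)

/-- QF6: the field `lead` of `Ram` (QF3, QF5 for `c s c⁻¹` and `s⁻¹`; `lcoef s⁻¹ = - lcoef s`). -/
def QF6_stmt : Prop := ∀ (k F : Type) [Field k] [IsAlgClosed k] [Field F] [Algebra k F], IsFF k F →
  ∀ (P : Place k F) (c s : F ≃ₐ[k] F), c • P = P → s • P = P → s ≠ 1 → 1 ≤ P.jump s →
    (P.theta c ^ (P.jump s) = 1 ↔
      (c * s * c⁻¹ * s⁻¹ = 1 ∨ P.jump s < P.jump (c * s * c⁻¹ * s⁻¹)))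

/-- QF7: cubes and wild elements. First part: QF5 twice (`lcoef s + lcoef s + lcoef s = 0`). Second: `s' = s^(3^n)` of order `m'`
prime to 3; if `s' ≠ 1`, `1 ≤ jump s'` (ultrametric, QF3) and `lcoef (s'^j) = j lcoef s'` for `3 ∤ j` (and the jump grows for `3 | j`);
more simply: apply QF4 for `m = 1` repeatedly: `s'^j t - t = j a t^(i+1) + ...` for all `j`; `j = m'` gives `m' a = 0`. -/
def QF7_stmt : Prop := ∀ (k F : Type) [Field k] [IsAlgClosed k] [CharP k 3] [Field F] [Algebra k F],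
  IsFF k F → ∀ (P : Place k F) (s : F ≃ₐ[k] F), s • P = P → s ≠ 1 → 1 ≤ P.jump s →
    (s ^ 3 = 1 ∨ P.jump s < P.jump (s ^ 3)) ∧
    ((∃ m : ℕ, 0 < m ∧ s ^ m = 1) → ∃ n : ℕ, s ^ (3 ^ n) = 1)

/-- QF8: commutators. `u = s t - t`, `w = s' t - t`; `s s' t - s' s t = (s w - w) - (s' u - u) = (j - i) a b t^(i+j+1) + ...` (QF4 with
`m = j + 1`, `m = i + 1`), and for `c = s s' s⁻¹ s'⁻¹`, `r = s' s t` (a uniformiser) `c r - r = s s' t - s' s t`; QF1. -/
def QF8_stmt : Prop := ∀ (k F : Type) [Field k] [IsAlgClosed k] [Field F] [Algebra k F], IsFF k F →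
  ∀ (P : Place k F) (s s' : F ≃ₐ[k] F), s • P = P → s' • P = P → s ≠ 1 → s' ≠ 1 →
    1 ≤ P.jump s → 1 ≤ P.jump s' → ((P.jump s : ℕ) : k) ≠ ((P.jump s' : ℕ) : k) →
      s * s' * s⁻¹ * s'⁻¹ ≠ 1 ∧ P.jump (s * s' * s⁻¹ * s'⁻¹) = P.jump s + P.jump s'

/-- QF9: an element of order 3 has a jump prime to 3.
Proof: `theta s ^ 3 = 1` gives `theta s = 1`, so `jump ≥ 1`. Additive Hilbert 90: choose `w` with `T = w + s w + s² w ≠ 0`
(independence of characters) and `y = -(s w + 2 s² w) / T`; then `s y - y = 1` (characteristic 3). By QF1 `P.ord y < 0` for every such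
`y`. Take `y` with `P.ord y` maximal. If `3 | P.ord y = -3 m`: `N = t (s t) (s² t)` is `s`-invariant, `N = t^3 + ...`, `y = b t^(-3m) + ...`, and
`y - b N^(-m)` has larger order, contradiction. So `P.ord y = -m` with `3 ∤ m`, and by QF4 `0 = P.ord (s y - y) = -m + jump`. -/
def QF9_stmt : Prop := ∀ (k F : Type) [Field k] [IsAlgClosed k] [CharP k 3] [Field F] [Algebra k F],
  IsFF k F → ∀ (P : Place k F) (s : F ≃ₐ[k] F), s • P = P → s ≠ 1 → s ^ 3 = 1 → P.jump s % 3 ≠ 0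

/-- QF10: all jumps of wild elements of a finite group are congruent modulo 3 and prime to 3.
Proof: let `z` be a wild element of the stabiliser of `P` in `G` with the largest jump. By QF8 (the commutator would have a larger
jump) all jumps are congruent to that of `z` modulo 3 (`CharP k 3`), by QF7 `z^3 = 1`, by QF9 the jump of `z` is prime to 3. -/
def QF10_stmt : Prop := ∀ (k F : Type) [Field k] [IsAlgClosed k] [CharP k 3] [Field F] [Algebra k F],
  IsFF k F → ∀ (G : Subgroup (F ≃ₐ[k] F)), Finite G → ∀ (P : Place k F) (s s' : F ≃ₐ[k] F),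
    s ∈ G → s' ∈ G → s • P = P → s' • P = P → s ≠ 1 → s' ≠ 1 → 1 ≤ P.jump s → 1 ≤ P.jump s' →
      P.jump s % 3 = P.jump s' % 3 ∧ P.jump s % 3 ≠ 0

/-- QF11: an automorphism `≠ 1` fixes finitely many places: if `s f ≠ f`, every fixed place is a pole of `f` or a zero of `s f - f`
(residue: QV1, `s` fixes constants); QV4. -/
def QF11_stmt : Prop := ∀ (k F : Type) [Field k] [IsAlgClosed k] [Field F] [Algebra k F], IsFF k F →
  ∀ s : F ≃ₐ[k] F, s ≠ 1 → {P : Place k F | s • P = P}.Finite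

/-! ## E: fixed fields -/

/-- QE1: the fixed field of a finite group is a function field, `[F : F^H] = |H|` (Artin;
`IntermediateField.finrank_fixedField_eq_card`). An element of `F^H` transcendental over `k`: `F / F^H` is algebraic, so
`F^H ≠ k`... take any transcendental coefficient of `∏ (T - s x)`; `F^H / k(y)` is finite as a subextension of `F / k(y)` (QL0). -/
def QE1_stmt : Prop := ∀ (k F : Type) [Field k] [IsAlgClosed k] [Field F] [Algebra k F], IsFF k F →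
  ∀ H : Subgroup (F ≃ₐ[k] F), Finite H →
    IsFF k (fixedField H) ∧ FiniteDimensional (fixedField H) F ∧
      Module.finrank (fixedField H) F = Nat.card H

/-- QE2: restriction of places: the orders of the elements of `E = F^H` at `P` form a nonzero subgroup `e ℤ` (if `P.ord` were trivial on
`E` it would be trivial on the algebraic extension `F`). The place below is unique, and the index too. -/
def QE2_stmt : Prop := ∀ (k F : Type) [Field k] [IsAlgClosed k] [Field F] [Algebra k F], IsFF k F →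
  ∀ H : Subgroup (F ≃ₐ[k] F), Finite H → ∀ P : Place k F,
    (∃ (Q : Place k (fixedField H)) (e : ℕ), Below (fixedField H) P Q e) ∧
    ∀ (Q Q' : Place k (fixedField H)) (e e' : ℕ), Below (fixedField H) P Q e →
      Below (fixedField H) P Q' e' → Q = Q' ∧ e = e'

/-- QE3: places above: let `x ∈ E` have its only pole at `Q` (QR5 for `E`, QE1); `x` has a pole `P` in `F` (QV0); the place of `E` below `P`
(QE2) is a pole of `x`, so it is `Q`. -/
def QE3_stmt : Prop := ∀ (k F : Type) [Field k] [IsAlgClosed k] [Field F] [Algebra k F], IsFF k F →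
  ∀ H : Subgroup (F ≃ₐ[k] F), Finite H → ∀ Q : Place k (fixedField H),
    ∃ (P : Place k F) (e : ℕ), Below (fixedField H) P Q e

/-- QE4: `H` acts transitively on the places above `Q`; conversely the orbit of `P` lies above `Q`.
Proof: suppose `P' ≠ s • P` for all `s ∈ H`. By QV2 choose `f` with `f - 1 ∈ Ge 1` at all `s • P` and `f ∈ Ge 1` at all `s • P'`, `f ≠ 0`. The
norm `∏_{s ∈ H} s f` is in `E`, has order 0 at `P` and positive order at `P'`, contradiction. -/
def QE4_stmt : Prop := ∀ (k F : Type) [Field k] [IsAlgClosed k] [Field F] [Algebra k F], IsFF k F →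
  ∀ H : Subgroup (F ≃ₐ[k] F), Finite H → ∀ (P P' : Place k F) (Q : Place k (fixedField H)) (e : ℕ),
    Below (fixedField H) P Q e →
      ((∃ e' : ℕ, Below (fixedField H) P' Q e') ↔ ∃ s ∈ H, P' = s • P) ∧
      ∀ s ∈ H, Below (fixedField H) (s • P) Q e

/-- QE5: the ramification index is the order of the stabiliser.
Proof: let `x ∈ E` have its only pole at `Q`, of order `m` (QR5, QE1). By QZ3 in `F`, `∑_{P | Q} e_P m = [F : k(x)] = |H| [E : k(x)] = |H| m` (QE1,
tower law, QZ3 in `E`). By QE4 the places above `Q` form one orbit, of length `|H| / |H_P|`, with equal `e`. -/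
def QE5_stmt : Prop := ∀ (k F : Type) [Field k] [IsAlgClosed k] [Field F] [Algebra k F], IsFF k F →
  ∀ H : Subgroup (F ≃ₐ[k] F), Finite H → ∀ (P : Place k F) (Q : Place k (fixedField H)) (e : ℕ),
    Below (fixedField H) P Q e → e = stabCard H P

/-- QE6: an invariant derivation, and its restriction to `E`.
Proof: let `D₁ ≠ 0` (QK1), `x ∈ E` with `D₁ x ≠ 0` (a derivation vanishing on `E` vanishes on the separable extension `F`),
`D = (D₁ x)⁻¹ D₁`, so `D x = 1`. For `s ∈ H` the derivation `s D s⁻¹` takes the value 1 at `x`, so it is `D` (QK2). So `D` maps `E` to `E`. -/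
def QE6_stmt : Prop := ∀ (k F : Type) [Field k] [IsAlgClosed k] [Field F] [Algebra k F], IsFF k F →
  ∀ H : Subgroup (F ≃ₐ[k] F), Finite H →
    ∃ (D : Derivation k F F) (D₀ : Derivation k (fixedField H) (fixedField H)), D ≠ 0 ∧ D₀ ≠ 0 ∧
      (∀ s ∈ H, ∀ f : F, D (s f) = s (D f)) ∧
      ∀ f : fixedField H, ((D₀ f : fixedField H) : F) = D (f : F)

/-! ## H: Hilbert's formula, Riemann-Hurwitz, Herbrand -/

/-- QH2: Hilbert's formula, totally ramified case (all elements of `H` fix `P`): with `t_Q`, `t_P` uniformisers,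
`v_P (dt_Q / dt_P) = ∑_{s ≠ 1} (i(s) + 1)`.
Proof: `t = P.unif`, `f(T) = ∏_{s ∈ H} (T - s t) = T^h + a_{h-1} T^(h-1) + ... + a_0`, `a_i ∈ E`, `h = |H| = e` (QE5). Apply `D`:
`f'(t) D t + ∑ (D a_i) t^i = 0`. `P.ord a_0 = h`, so `a_0` is a uniformiser at `Q` and `Q.ord (D₀ a_0) = Q.ord (D₀ Q.unif) =: δ` (QK5 for `E`); `a_i` is
regular at `Q` (for `i > 0` even `a_i ∈ Ge 1`; `Ge 0` is enough), `D₀ a_i ∈ Ge δ` (for `Ge 1`: QK5; for constants plus `Ge 1`: the same), so the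
terms with `i ≥ 1` have larger order at `P` than the term `i = 0`, of order `h δ`. So `P.ord (f'(t)) + P.ord (D t) = h δ`, and
`f'(t) = ∏_{s ≠ 1} (t - s t)` (QF1). -/
def QH2_stmt : Prop := ∀ (k F : Type) [Field k] [IsAlgClosed k] [Field F] [Algebra k F], IsFF k F →
  ∀ H : Subgroup (F ≃ₐ[k] F), Finite H → ∀ (P : Place k F) (Q : Place k (fixedField H)) (e : ℕ),
    Below (fixedField H) P Q e → (∀ s ∈ H, s • P = P) →
    ∀ (D : Derivation k F F) (D₀ : Derivation k (fixedField H) (fixedField H)), D ≠ 0 → D₀ ≠ 0 →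
      (∀ f : fixedField H, ((D₀ f : fixedField H) : F) = D (f : F)) →
      (e : ℤ) * Q.ord (D₀ Q.unif) - P.ord (D P.unif) =
        ∑ᶠ s : H, if (s : F ≃ₐ[k] F) ≠ 1 then ((P.jump s : ℤ) + 1) else 0

/-- QH3: Hilbert's formula in general.
Proof: let `H_P` be the stabiliser, `E' = F^{H_P} ≥ E`, `Q'` the place of `E'` below `P` with index `|H_P| = e` (QE5). For `f ∈ E`:
`P.ord f = e Q.ord f = e Q'.ord f`, so `Q.unif` (as an element of `E'`) is a uniformiser at `Q'`. `D` is `H`-invariant with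
restriction to `E'` (invariance under `H_P`); so `Q.ord (D₀ Q.unif) = Q'.ord (D₀' Q.unif) = Q'.ord (D₀' Q'.unif)` (QK5 for `E'`); QH2 for `H_P`. -/
def QH3_stmt : Prop := ∀ (k F : Type) [Field k] [IsAlgClosed k] [Field F] [Algebra k F], IsFF k F →
  ∀ H : Subgroup (F ≃ₐ[k] F), Finite H → ∀ (P : Place k F) (Q : Place k (fixedField H)) (e : ℕ),
    Below (fixedField H) P Q e →
    ∀ (D : Derivation k F F) (D₀ : Derivation k (fixedField H) (fixedField H)), D ≠ 0 → D₀ ≠ 0 →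
      (∀ s ∈ H, ∀ f : F, D (s f) = s (D f)) →
      (∀ f : fixedField H, ((D₀ f : fixedField H) : F) = D (f : F)) →
      (e : ℤ) * Q.ord (D₀ Q.unif) - P.ord (D P.unif) =
        ∑ᶠ s : H, if (s : F ≃ₐ[k] F) ≠ 1 ∧ (s : F ≃ₐ[k] F) • P = P then ((P.jump s : ℤ) + 1) else 0

/-- QH4: Riemann-Hurwitz.
Proof: `E = F^H` has a genus `γ` (QE1, QR2). `D`, `D₀` as in QE6, `x ∈ E` with `D₀ x ≠ 0`. By QH1 `2g - 2 = ∑_P dord_P (D, x)`,
`2γ - 2 = ∑_Q dord_Q (D₀, x)`. For `P` above `Q`: `dord_P = e dord_Q + ∑_{s ∈ H_P, s ≠ 1} (i(s) + 1)` (QH3), and `∑_{P | Q} e_P = |H|` (QE4, QE5). -/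
def QH4_stmt : Prop := ∀ (k F : Type) [Field k] [IsAlgClosed k] [Field F] [Algebra k F], IsFF k F →
  ∀ g : ℕ, IsGenus k F g → ∀ H : Subgroup (F ≃ₐ[k] F), Finite H →
    ∃ γ : ℕ, 2 * (g : ℤ) - 2 = (Nat.card H : ℤ) * (2 * (γ : ℤ) - 2) +
      ∑ᶠ P : Place k F, ∑ᶠ s : H,
        if (s : F ≃ₐ[k] F) ≠ 1 ∧ (s : F ≃ₐ[k] F) • P = P then ((P.jump s : ℤ) + 1) else 0

/-- QH5: Herbrand, first part. `W` = wild group of `P` in `G`, `Q` a subgroup of index 3 normal in the stabiliser.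
`E = F^Q`, `R` = place of `E` below `P`. Every `c ∈ G` fixing `P` induces an automorphism `c'` of `E` (normality), fixing `R`, with
`theta_R(c') = theta_P(c)^|Q|` (the uniformiser `∏_{q ∈ Q} q t` of `R`; it is multiplied by `∏ theta(c)`), and `c' = 1` iff `c ∈ Q` (Galois
correspondence). Different exponents: QH2 for `F / F^W`, `F / F^Q` and `F^Q / F^W` (the group `W / Q` of automorphisms of `E`; its
fixed field in `E` is `F^W`; invariant derivation of QE6 for `W`): `∑_{s ∈ W \ Q} (i(s) + 1) = |Q| ∑_{σ ∈ W/Q, σ ≠ 1} (i_R(σ) + 1) = 2 |Q| (j + 1)`,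
`j` the common jump of `σ`, `σ⁻¹`. `j ≥ 1` as `theta_R(σ) = 1` (QF2). -/
def QH5_stmt : Prop := ∀ (k F : Type) [Field k] [IsAlgClosed k] [CharP k 3] [Field F] [Algebra k F],
  IsFF k F → ∀ G W Q : Subgroup (F ≃ₐ[k] F), Finite G → ∀ P : Place k F,
    (∀ s, s ∈ W ↔ s ∈ G ∧ s • P = P ∧ P.theta s = 1) → Q ≤ W →
    (∀ c ∈ G, c • P = P → ∀ q ∈ Q, c * q * c⁻¹ ∈ Q) → Nat.card W = 3 * Nat.card Q →
    ∃ j : ℕ, 1 ≤ j ∧
      (∑ᶠ s : W, if (s : F ≃ₐ[k] F) ∉ Q then P.jump s else 0) = 2 * Nat.card Q * j ∧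
      ∀ c ∈ G, c • P = P →
        (P.theta c ^ (Nat.card Q * j) = 1 ↔ ∀ s ∈ W, c * s * c⁻¹ * s⁻¹ ∈ Q)

/-- QG: the geometric part. Proof: `X` = the set of places with nontrivial stabiliser in `G` (finite by QF11, `G`-stable);
`i x s = jump` if `s ≠ 1` fixes `x`, else 0; `θ` from `theta` (QF2, QF3); fields: QF1 - QF10, QH5; `RH` from QH4 for `H.map G.subtype` (places with
trivial stabiliser contribute 0). -/
def QG_stmt : Prop := GEO_stmt

end

end Pool.Agent.helper53.AU
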