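import Pool.Agent.helper87.AU.SpecQ1

/-!
# au:QD6: the discriminant, locally
-/

namespace Pool.Agent.helper53.AU

open scoped Classical IntermediateField
open Polynomial (aeval)

theorem QD6_inj {k F : Type} [Field k] [Field F] [Algebra k F] {x : F} (hx : Transcendental k x) :
    Function.Injective (aeval x : Polynomial k → F) := transcendental_iff_injective.mp hx

theorem QD6 (hK3 : QK3_stmt) (hK5 : QK5_stmt) (hN0 : QN0_stmt) (hN2 : QN2_stmt) (hD0 : QD0_stmt)
    (hD2 : QD2_stmt) (hD3 : QD3_stmt) (hD4 : QD4_stmt) (hD5 : QD5_stmt) : QD6_stmt := by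
  intro k F _ _ _ _ hF P₀ x n u μ hu hnk D hD Δ hΔ hdisc a
  obtain ⟨htr, hdeg, _, hmat⟩ := hD0 k F hF P₀ x n u μ hu
  obtain ⟨α, hα, c, hc, hcc⟩ := hD2 k F hF P₀ x hu.xreg htr a
  obtain ⟨W, hWa, hLI, hW⟩ := hD3 k F hF P₀ x n u μ hu a α c hα hc hcc
  obtain ⟨f, hfm, hfd, hf0, fx, fT, hfT, hder, hfTr, hfx⟩ := hD4 k F hF P₀ x n u μ hu a α c hα hc hcc
  have hx0 : x ≠ 0 := by
    rintro rfl
    have h1 := hu.xord
    have h2 := hu.pos
    rw [P₀.ord_zero] at h1
    omega
  have hDx : D x ≠ 0 := by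
    have h1 := (hK5 k F hF D hD P₀ P₀.unif P₀.unif_spec).2.2.2 x hx0 (by
      rw [hu.xord]
      simpa using hnk)
    exact h1.1
  have hsep : Sep k x := (hK3 k F hF D hD x).mp hDx
  have hinj := QD6_inj htr
  obtain ⟨A, hA, _⟩ := hN0 k F P₀ x n u μ hu fT hfTr
  have hnorm := (hmat fT hfTr A hA).2
  have hW0 : W ≠ 0 := by
    rintro rfl
    simp at hWa
  have hWΔ : W ^ 2 * Δ ≠ 0 := mul_ne_zero (pow_ne_zero _ hW0) hΔ
  have hdet : A.det = W ^ 2 * Δ ∨ A.det = -(W ^ 2 * Δ) := by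
    have h1 : ((Algebra.discr k⟮x⟯ (fun j : Fin n => α ^ (j : ℕ)) : k⟮x⟯) : F) =
        aeval x (W ^ 2 * Δ) := by
      rw [hW, hdisc, map_mul]
    rcases hD5 k F hF x n α hsep hdeg hLI f hfm hfd hf0 with h2 | h2
    · left
      apply hinj
      rw [← hnorm, ← h1, h2, hfT]
    · right
      apply hinj
      rw [← hnorm, map_neg, ← h1, h2, hfT, neg_neg]
  have hAdet : A.det ≠ 0 := by
    rcases hdet with h | h <;> rw [h]
    · exact hWΔ
    · exact neg_ne_zero.mpr hWΔ
  have hfT0 : fT ≠ 0 := by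
    rintro h0
    apply hAdet
    apply hinj
    rw [← hnorm, h0]
    have hfin : FiniteDimensional k⟮x⟯ F := hsep.2.1
    rw [Algebra.norm_zero]
    simp
  have hmul : Polynomial.rootMultiplicity a A.det = Polynomial.rootMultiplicity a Δ := by
    have h1 : Polynomial.rootMultiplicity a (W ^ 2 * Δ) = Polynomial.rootMultiplicity a Δ := by
      rw [Polynomial.rootMultiplicity_mul hWΔ]
      have h2 : Polynomial.rootMultiplicity a (W ^ 2) = 0 := by
        apply Polynomial.rootMultiplicity_eq_zero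
        rw [Polynomial.IsRoot.def, Polynomial.eval_pow]
        exact pow_ne_zero _ hWa
      rw [h2, zero_add]
    rcases hdet with h | h <;> rw [h]
    · exact h1
    · rw [← h1, ← neg_one_mul]
      have h3 : (-1 : Polynomial k) * (W ^ 2 * Δ) = Polynomial.C (-1) * (W ^ 2 * Δ) := by simp
      have h4 : Polynomial.C (-1 : k) * (W ^ 2 * Δ) ≠ 0 := by
        rw [← h3, neg_one_mul]
        exact neg_ne_zero.mpr hWΔ
      rw [h3, Polynomial.rootMultiplicity_mul h4]
      simp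
  rw [← hmul, hN2 k F hF P₀ x n u μ hu fT hfTr hfT0 A hA a]
  refine finsum_congr fun P => ?_
  split_ifs with hP
  · obtain ⟨hfx0, hfxo⟩ := hfx P hP
    have hDα := hK5 k F hF D hD P _ (hc P hP)
    rw [map_sub, Derivation.map_algebraMap, sub_zero] at hDα
    have h1 := hder D
    have h2 : fT * D α = -(fx * D x) := eq_neg_of_add_eq_zero_left h1
    have h3 := congrArg P.ord h2
    rw [P.ord_neg, P.ord_mul _ _ hfT0 hDα.1, P.ord_mul _ _ hfx0 hDx, hfxo, hDα.2.1] at h3
    unfold Place.dord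
    omega
  · rfl

end Pool.Agent.helper53.AU
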