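import Pool.Agent.helper87.AU.SpecQ2

/-!
# au:QE5: the ramification index is the order of the stabiliser
-/

namespace Pool.Agent.helper53.AU

open scoped Classical IntermediateField
open IntermediateField (fixedField)

theorem QE5_degx {k F : Type} [Field k] [Field F] [Algebra k F] (E : IntermediateField k F) (x : E) :
    degx k (x : F) = degx k x * Module.finrank E F := by
  have h1 : (IntermediateField.adjoin k ({x} : Set E)).map E.val =
      IntermediateField.adjoin k ({(x : F)} : Set F) := by
    rw [IntermediateField.adjoin_map]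
    simp
  have hle : IntermediateField.adjoin k ({(x : F)} : Set F) ≤ E := by
    rw [IntermediateField.adjoin_simple_le_iff]
    exact x.2
  have h2 := IntermediateField.relfinrank_mul_finrank_top hle
  have h3 : (IntermediateField.adjoin k ({(x : F)} : Set F)).comap E.val =
      IntermediateField.adjoin k ({x} : Set E) := by
    rw [← h1]
    exact IntermediateField.comap_map _ _
  have h4 := IntermediateField.finrank_comap (IntermediateField.adjoin k ({(x : F)} : Set F)) E.val
  rw [h3, IntermediateField.fieldRange_val] at h4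
  unfold degx
  rw [← h2, ← h4]

theorem QE5_const {k F : Type} [Field k] [IsAlgClosed k] [Field F] [Algebra k F] {x : F}
    (hx : ¬ Transcendental k x) : ∃ c : k, algebraMap k F c = x := by
  have h1 : IsAlgebraic k x := by
    unfold Transcendental at hx
    exact not_not.mp hx
  have h2 : IsIntegral k x := h1.isIntegral
  have h3 := IsAlgClosed.degree_eq_one_of_irreducible k (minpoly.irreducible h2)
  obtain ⟨c, hc⟩ := minpoly.mem_range_of_degree_eq_one k x h3
  exact ⟨c, hc⟩

theorem QE5 (hR5 : QR5_stmt) (hZ3 : QZ3_stmt) (hE1 : QE1_stmt) (hE2 : QE2_stmt)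
    (hE4 : QE4_stmt) : QE5_stmt := by
  intro k F _ _ _ _ hF H hH P Q e hB
  obtain ⟨hFE, _, hrank⟩ := hE1 k F hF H hH
  obtain ⟨C, hC⟩ := hR5 k (fixedField H) hFE Q
  obtain ⟨x, hxr, hx0, hxo⟩ := hC (C + 1) (by omega)
  have hn : (0 : ℤ) < ((C + 1 : ℕ) : ℤ) := by positivity
  have htr : Transcendental k x := by
    by_contra h
    obtain ⟨c, hc⟩ := QE5_const h
    have hc0 : c ≠ 0 := fun h0 => hx0 (by rw [← hc, h0, map_zero])
    have := Q.ord_const c hc0
    rw [hc, hxo] at this
    omega
  have htr2 : Transcendental k (x : F) := by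
    intro h
    exact htr ((isAlgebraic_algebraMap_iff (A := F)
      (FaithfulSMul.algebraMap_injective (fixedField H) F)).mp h)
  have hd1 : (degx k x : ℤ) = ((C + 1 : ℕ) : ℤ) := by
    rw [← (hZ3 k (fixedField H) hFE x htr).2, finsum_eq_single _ Q]
    · rw [hxo]; omega
    · intro Q' hQ'
      have := (hxr Q' hQ').le hx0
      omega
  have hd2 : (degx k (x : F) : ℤ) = ((C + 1 : ℕ) : ℤ) * (Nat.card H : ℤ) := by
    rw [QE5_degx, hrank]
    push_cast
    rw [hd1]
    push_cast
    ring
  have hxF0 : (x : F) ≠ 0 := by simpa using hx0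
  -- the local contributions
  have hloc : ∀ P' : Place k F, max (-P'.ord (x : F)) 0 =
      if P' ∈ MulAction.orbit H P then (e : ℤ) * ((C + 1 : ℕ) : ℤ) else 0 := by
    intro P'
    split_ifs with h
    · obtain ⟨s, rfl⟩ := h
      have h1 := ((hE4 k F hF H hH P P Q e hB).2 (s : F ≃ₐ[k] F) s.2).2 x
      have h2 : ((s • P : Place k F)).ord (x : F) = ((s : F ≃ₐ[k] F) • P).ord (x : F) := rfl
      simp only at *
      rw [h2, h1, hxo]
      have : (0 : ℤ) ≤ (e : ℤ) * ((C + 1 : ℕ) : ℤ) := by positivity
      rw [mul_neg, neg_neg]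
      exact max_eq_left this
    · obtain ⟨Q', e', hB'⟩ := (hE2 k F hF H hH P').1
      have hne : Q' ≠ Q := by
        rintro rfl
        obtain ⟨s, hs, hs'⟩ := ((hE4 k F hF H hH P P' Q' e hB).1).mp ⟨e', hB'⟩
        exact h ⟨⟨s, hs⟩, hs'.symm⟩
      have h1 := (hxr Q' hne).le hx0
      rw [hB'.2 x]
      have : (0 : ℤ) ≤ (e' : ℤ) * Q'.ord x := mul_nonneg (by positivity) h1
      exact max_eq_right (by omega)
  have hsum : (degx k (x : F) : ℤ) = (Nat.card (MulAction.orbit H P) : ℤ) *
      ((e : ℤ) * ((C + 1 : ℕ) : ℤ)) := by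
    rw [← (hZ3 k F hF (x : F) htr2).2]
    rw [finsum_congr hloc]
    have : Finite (MulAction.orbit H P) := Set.finite_range _
    have hfin : (MulAction.orbit H P).Finite := Set.toFinite _
    rw [finsum_eq_sum_of_support_subset (s := hfin.toFinset)]
    · rw [Finset.sum_congr rfl (g := fun _ => (e : ℤ) * ((C + 1 : ℕ) : ℤ))]
      · rw [Finset.sum_const, nsmul_eq_mul, ← Nat.card_eq_card_finite_toFinset hfin]
      · intro P' hP'
        rw [if_pos (hfin.mem_toFinset.mp hP')]
    · intro P' hP'
      simp only [Function.mem_support] at hP'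
      simp only [Set.Finite.coe_toFinset]
      by_contra h
      exact hP' (if_neg h)
  have horb : Nat.card (MulAction.orbit H P) * Nat.card (MulAction.stabilizer H P) =
      Nat.card H := by
    rw [← Nat.card_prod]
    exact Nat.card_congr (MulAction.orbitProdStabilizerEquivGroup H P)
  have hstab : Nat.card (MulAction.stabilizer H P) = stabCard H P := rfl
  have : Nonempty (MulAction.orbit H P) := ⟨⟨P, MulAction.mem_orbit_self P⟩⟩
  have : Finite (MulAction.orbit H P) := Set.finite_range _
  have hpos : 0 < Nat.card (MulAction.orbit H P) := Nat.card_pos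
  have h1 : ((C + 1 : ℕ) : ℤ) * (Nat.card (MulAction.orbit H P) : ℤ) * (stabCard H P : ℤ) =
      ((C + 1 : ℕ) : ℤ) * (Nat.card (MulAction.orbit H P) : ℤ) * (e : ℤ) := by
    have h2 : (Nat.card (MulAction.orbit H P) : ℤ) * (stabCard H P : ℤ) = (Nat.card H : ℤ) := by
      rw [← hstab]; exact_mod_cast horb
    have h3 := hd2.symm.trans hsum
    rw [mul_assoc, h2, h3]
    ring
  have h4 : ((C + 1 : ℕ) : ℤ) * (Nat.card (MulAction.orbit H P) : ℤ) ≠ 0 := by positivity
  exact_mod_cast (mul_left_cancel₀ h4 h1).symm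

end Pool.Agent.helper53.AU
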