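import Pool.Agent.helper87.AU.SpecQ1

/-!
# au:QK2: derivations are unique up to a factor
-/

namespace Pool.Agent.helper53.AU

open scoped Classical IntermediateField

/-- a derivation vanishing at `x` vanishes on `k(x)` -/
theorem QK2_van {k F : Type} [Field k] [Field F] [Algebra k F] (D : Derivation k F F) (x : F)
    (hx : D x = 0) : ∀ a ∈ k⟮x⟯, D a = 0 := by
  intro a ha
  induction ha using IntermediateField.adjoin_induction with
  | mem y hy =>
    rw [Set.mem_singleton_iff] at hy
    rw [hy, hx]
  | algebraMap c => exact D.map_algebraMap c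
  | add y z _ _ hy hz => rw [map_add, hy, hz, add_zero]
  | inv y _ hy => rw [D.leibniz_inv, hy, smul_zero]
  | mul y z _ _ hy hz => rw [D.leibniz, hy, hz, smul_zero, smul_zero, add_zero]

/-- a derivation vanishing at a separating element vanishes -/
theorem QK2_zero {k F : Type} [Field k] [Field F] [Algebra k F] (D : Derivation k F F) (x : F)
    (hs : Sep k x) (hx : D x = 0) : D = 0 := by
  let D' : Derivation k⟮x⟯ F F := Derivation.mk'
    { toFun := D
      map_add' := fun a b => D.map_add a b
      map_smul' := fun c a => by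
        have h : c • a = (c : F) * a := rfl
        rw [h, D.leibniz, QK2_van D x hx c c.2, smul_zero, add_zero]
        rfl } (fun a b => D.leibniz a b)
  have hsep := hs.2.2
  have h1 : Algebra.FormallyUnramified k⟮x⟯ F := Algebra.FormallyUnramified.of_isSeparable _ _
  have h2 : Subsingleton (Ω[F⁄k⟮x⟯]) := inferInstance
  ext f
  have h3 : D' f = D'.liftKaehlerDifferential (KaehlerDifferential.D k⟮x⟯ F f) := by
    rw [Derivation.liftKaehlerDifferential_comp_D]
  have h4 : KaehlerDifferential.D k⟮x⟯ F f = 0 := Subsingleton.elim _ _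
  rw [h4, map_zero] at h3
  exact h3

theorem QK2 (hK0 : QK0_stmt) : QK2_stmt := by
  intro k F _ _ _ _ hF D D' hD
  obtain ⟨x, hx⟩ := hK0 k F hF
  have h0 : D x ≠ 0 := fun h => hD (QK2_zero D x hx h)
  refine ⟨D' x / D x, ?_⟩
  have h1 : D' - (D' x / D x) • D = 0 := by
    apply QK2_zero _ x hx
    rw [Derivation.sub_apply, Derivation.smul_apply, smul_eq_mul, div_mul_cancel₀ _ h0, sub_self]
  exact sub_eq_zero.mp h1

end Pool.Agent.helper53.AU
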