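import Pool.Agent.helper87.AU.SpecQ1

/-!
# au:QK5: derivations and orders
-/

namespace Pool.Agent.helper53.AU

open scoped Classical

variable {k F : Type} [Field k] [Field F] [Algebra k F]

theorem QK5_exp (hV1 : ∀ (P : Place k F) (f : F), P.Ge 0 f → ∃ c : k, P.Ge 1 (f - algebraMap k F c))
    (D : Derivation k F F) (P : Place k F) (t : F) (ht : P.Unif t) (f : F) (hf : P.Ge 0 f) (j : ℕ) :
    ∃ g h : F, P.Ge 0 g ∧ P.Ge 0 h ∧ D f = g * D t + t ^ j * D h := by
  induction j with
  | zero => exact ⟨0, f, P.ge_zero 0, hf, by simp⟩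
  | succ j ih =>
    obtain ⟨g, h, hg, hh, he⟩ := ih
    obtain ⟨c, hc⟩ := hV1 P h hh
    have ht0 : t ≠ 0 := ht.1
    set h' := (h - algebraMap k F c) * t⁻¹ with hh'
    have h1 : P.Ge 0 h' := by
      have : P.Ge (-1) t⁻¹ := Or.inr (by rw [P.ord_inv ht0, ht.2])
      simpa using hc.mul this
    have h2 : h = algebraMap k F c + t * h' := by
      rw [hh']
      field_simp
      ring
    have ht1 : P.Ge 0 (t ^ j) := by
      have := (Place.Ge.pow (P := P) (n := 0) (f := t) (Or.inr (by rw [ht.2]; norm_num)) j)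
      simpa using this
    refine ⟨g + t ^ j * h', h', hg.add (by simpa using ht1.mul h1), h1, ?_⟩
    have h3 : D h = h' * D t + t * D h' := by
      conv_lhs => rw [h2]
      rw [map_add, Derivation.map_algebraMap, zero_add, Derivation.leibniz]
      simp only [smul_eq_mul]
      ring
    rw [he, h3, pow_succ]
    ring

theorem QK5_eq_zero (P : Place k F) (f : F) (h : ∀ n : ℕ, P.Ge (n : ℤ) f) : f = 0 := by
  by_contra hf
  have := (h ((P.ord f).toNat + 1)).le hf
  push_cast at this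
  have h2 := Int.self_le_toNat (P.ord f)
  omega

theorem QK5_zpow (D : Derivation k F F) {t : F} (ht : t ≠ 0) (m : ℤ) :
    D (t ^ m) = (m : F) * t ^ (m - 1) * D t := by
  have hpos : ∀ n : ℕ, D (t ^ (n : ℤ)) = (n : F) * t ^ ((n : ℤ) - 1) * D t := by
    intro n
    induction n with
    | zero => simp
    | succ n ih =>
      rw [Nat.cast_succ, zpow_add₀ ht, zpow_one, Derivation.leibniz, ih, add_sub_cancel_right]
      simp only [smul_eq_mul]
      have : t ^ (n : ℤ) = t * t ^ ((n : ℤ) - 1) := by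
        rw [← zpow_one_add₀ ht]; congr 1; ring
      rw [this]
      push_cast
      ring
  cases m with
  | ofNat n => simpa using hpos n
  | negSucc n =>
    have h1 : t ^ (Int.negSucc n) * t ^ ((n + 1 : ℕ) : ℤ) = 1 := by
      rw [← zpow_add₀ ht]
      simp [Int.negSucc_eq]
    have h2 : D (t ^ (Int.negSucc n) * t ^ ((n + 1 : ℕ) : ℤ)) = 0 := by
      rw [h1]; exact D.map_one_eq_zero
    rw [Derivation.leibniz, hpos (n + 1)] at h2
    simp only [smul_eq_mul] at h2
    have h3 : t ^ ((n + 1 : ℕ) : ℤ) ≠ 0 := zpow_ne_zero _ ht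
    have h4 : t ^ ((n + 1 : ℕ) : ℤ) * D (t ^ (Int.negSucc n)) =
        t ^ ((n + 1 : ℕ) : ℤ) * (((Int.negSucc n : ℤ) : F) * t ^ (Int.negSucc n - 1) * D t) := by
      have h5 : t ^ ((n + 1 : ℕ) : ℤ) * t ^ (Int.negSucc n - 1) =
          t ^ (Int.negSucc n) * t ^ (((n + 1 : ℕ) : ℤ) - 1) := by
        rw [← zpow_add₀ ht, ← zpow_add₀ ht]
        congr 1
        simp [Int.negSucc_eq]
      calc t ^ ((n + 1 : ℕ) : ℤ) * D (t ^ (Int.negSucc n))
          = -(t ^ (Int.negSucc n) * (((n + 1 : ℕ) : F) * t ^ (((n + 1 : ℕ) : ℤ) - 1) * D t)) := by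
            linear_combination h2
        _ = -(((n + 1 : ℕ) : F)) * (t ^ (Int.negSucc n) * t ^ (((n + 1 : ℕ) : ℤ) - 1)) * D t := by
            ring
        _ = -(((n + 1 : ℕ) : F)) * (t ^ ((n + 1 : ℕ) : ℤ) * t ^ (Int.negSucc n - 1)) * D t := by
            rw [h5]
        _ = _ := by
            rw [Int.cast_negSucc]
            ring
    exact mul_left_cancel₀ h3 h4

theorem QK5 (hV1 : QV1_stmt) (hK4 : QK4_stmt) : QK5_stmt := by
  intro k F _ _ _ _ hF D hD P
  have hV := hV1 k F hF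
  obtain ⟨N, hN⟩ := hK4 k F hF D P
  have htj : ∀ t : F, P.Unif t → ∀ j : ℕ, P.Ge (j : ℤ) (t ^ j) := by
    intro t ht j
    right
    rw [P.ord_pow ht.1, ht.2]
    simp
  -- nonvanishing
  have hne : ∀ t : F, P.Unif t → D t ≠ 0 := by
    intro t ht h0
    have h1 : ∀ f : F, P.Ge 0 f → D f = 0 := by
      intro f hf
      apply QK5_eq_zero P
      intro n
      obtain ⟨g, h, _, hh, he⟩ := QK5_exp hV D P t ht f hf (n + N)
      rw [he, h0, mul_zero, zero_add]
      have := (htj t ht (n + N)).mul (hN h hh)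
      refine this.mono ?_
      push_cast
      omega
    apply hD
    ext f
    by_cases hf : P.Ge 0 f
    · simpa using h1 f hf
    · have hf0 : f ≠ 0 := fun h => hf (Or.inl h)
      have h2 : P.Ge 0 f⁻¹ := by
        right
        rw [P.ord_inv hf0]
        have : ¬ 0 ≤ P.ord f := fun h => hf (Or.inr h)
        omega
      have h3 := h1 _ h2
      have h4 : D (f * f⁻¹) = 0 := by
        rw [mul_inv_cancel₀ hf0]; exact D.map_one_eq_zero
      rw [Derivation.leibniz, h3] at h4
      simp only [smul_eq_mul, mul_zero, zero_add] at h4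
      simpa [hf0] using h4
  -- regular functions
  have hreg : ∀ t : F, P.Unif t → ∀ f : F, P.Ge 0 f → P.Ge (P.ord (D t)) (D f) := by
    intro t ht f hf
    obtain ⟨g, h, hg, hh, he⟩ := QK5_exp hV D P t ht f hf ((P.ord (D t)).toNat + N)
    rw [he]
    refine Place.Ge.add ?_ ?_
    · simpa using hg.mul (P.ge_ord (D t))
    · have := (htj t ht ((P.ord (D t)).toNat + N)).mul (hN h hh)
      refine this.mono ?_
      push_cast
      have := Int.self_le_toNat (P.ord (D t))
      omega
  have hdec : ∀ t : F, P.Unif t → ∀ f : F, f ≠ 0 → ∃ v : F, P.Ge 0 v ∧ v ≠ 0 ∧ P.ord v = 0 ∧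
      f = t ^ (P.ord f) * v ∧
      D f = (P.ord f : F) * t ^ (P.ord f - 1) * v * D t + t ^ (P.ord f) * D v := by
    intro t ht f hf
    have ht0 := ht.1
    have hz : t ^ (P.ord f) ≠ 0 := zpow_ne_zero _ ht0
    refine ⟨f / t ^ (P.ord f), ?_, div_ne_zero hf hz, ?_, ?_, ?_⟩
    · right
      rw [P.ord_div hf hz, P.ord_zpow ht0, ht.2]
      simp
    · rw [P.ord_div hf hz, P.ord_zpow ht0, ht.2]
      simp
    · field_simp
    · have h1 : f = t ^ (P.ord f) * (f / t ^ (P.ord f)) := by field_simp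
      conv_lhs => rw [h1]
      rw [Derivation.leibniz, QK5_zpow D ht0]
      simp only [smul_eq_mul]
      ring
  have hm : ∀ t : F, P.Unif t → ∀ (m : ℤ) (f : F), P.Ge m f → P.Ge (m - 1 + P.ord (D t)) (D f) := by
    intro t ht m f hf
    by_cases hf0 : f = 0
    · left; rw [hf0, map_zero]
    obtain ⟨v, hv, _, _, _, hDf⟩ := hdec t ht f hf0
    have hmf := hf.le hf0
    rw [hDf]
    have htz : ∀ n : ℤ, P.Ge n (t ^ n) := by
      intro n
      right
      rw [P.ord_zpow ht.1, ht.2]
      simp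
    refine Place.Ge.add ?_ ?_
    · have h1 : P.Ge 0 ((P.ord f : F)) := by
        have := P.ge_const ((P.ord f : ℤ) : k)
        simpa using this
      have := ((h1.mul (htz (P.ord f - 1))).mul hv).mul (P.ge_ord (D t))
      refine this.mono (by omega)
    · have := (htz (P.ord f)).mul (hreg t ht v hv)
      refine this.mono (by omega)
  intro t ht
  refine ⟨hne t ht, ?_, hm t ht, ?_⟩
  · have h1 := (hm P.unif P.unif_spec 1 t (Or.inr (by rw [ht.2]))).le (hne t ht)
    have h2 := (hm t ht 1 P.unif (Or.inr (by rw [P.unif_spec.2]))).le (hne _ P.unif_spec)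
    omega
  · intro f hf hk
    obtain ⟨v, hv, hv0, hvo, _, hDf⟩ := hdec t ht f hf
    have hF0 : ((P.ord f : ℤ) : F) ≠ 0 := by
      rw [← map_intCast (algebraMap k F) (P.ord f)]
      exact fun h => hk ((map_eq_zero (algebraMap k F)).mp h)
    have hord0 : P.ord ((P.ord f : ℤ) : F) = 0 := by
      have := P.ord_const ((P.ord f : ℤ) : k) hk
      rwa [map_intCast] at this
    have hz : t ^ (P.ord f - 1) ≠ 0 := zpow_ne_zero _ ht.1
    have hzf : t ^ (P.ord f) ≠ 0 := zpow_ne_zero _ ht.1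
    have hA0 : (P.ord f : F) * t ^ (P.ord f - 1) * v * D t ≠ 0 :=
      mul_ne_zero (mul_ne_zero (mul_ne_zero hF0 hz) hv0) (hne t ht)
    have hA : P.ord ((P.ord f : F) * t ^ (P.ord f - 1) * v * D t) =
        P.ord f - 1 + P.ord (D t) := by
      rw [P.ord_mul _ _ (mul_ne_zero (mul_ne_zero hF0 hz) hv0) (hne t ht),
        P.ord_mul _ _ (mul_ne_zero hF0 hz) hv0, P.ord_mul _ _ hF0 hz, hord0, hvo,
        P.ord_zpow ht.1, ht.2]
      ring
    have hB : P.Ge (P.ord ((P.ord f : F) * t ^ (P.ord f - 1) * v * D t) + 1)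
        (t ^ (P.ord f) * D v) := by
      rw [hA]
      have h1 : P.Ge (P.ord f) (t ^ (P.ord f)) := by
        right
        rw [P.ord_zpow ht.1, ht.2]
        simp
      refine (h1.mul (hreg t ht v hv)).mono (by omega)
    have := Place.ord_add_eq hA0 hB
    rw [← hDf, hA] at this
    exact this

end Pool.Agent.helper53.AU
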