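import Pool.Agent.helper87.AU.QA1
import Pool.Agent.helper31.AU.QA2
import Pool.Agent.helper52.AU.QA3
import Pool.Agent.helper16.AU.QD0
import Pool.Agent.helper16.AU.QD1
import Pool.Agent.helper21.AU.QD2
import Pool.Agent.helper64.AU.QD3
import Pool.Agent.helper33.AU.QD4
import Pool.Agent.helper97.AU.QD5
import Pool.Agent.helper87.AU.QD6
import Pool.Agent.helper21.AU.QE1
import Pool.Agent.helper43.AU.QE2
import Pool.Agent.helper61.AU.QE3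
import Pool.Agent.helper45.AU.QE4
import Pool.Agent.helper87.AU.QE5
import Pool.Agent.helper2.AU.QE6
import Pool.Agent.helper98.AU.QF1
import Pool.Agent.helper91.AU.QF2
import Pool.Agent.helper13.AU.QF3
import Pool.Agent.helper13.AU.QF4
import Pool.Agent.helper44.AU.QF5
import Pool.Agent.helper21.AU.QF6
import Pool.Agent.helper57.AU.QF7
import Pool.Agent.helper38.AU.QF8
import Pool.Agent.helper31.AU.QF9
import Pool.Agent.helper30.AU.QF10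
import Pool.Agent.helper46.AU.QF11
import Pool.Agent.helper53.AU.QG
import Pool.Agent.helper44.AU.QH0
import Pool.Agent.helper58.AU.QH1
import Pool.Agent.helper79.AU.HIL
import Pool.Agent.helper79.AU.QH3
import Pool.Agent.helper2.AU.QH4
import Pool.Agent.helper79.AU.QH5
import Pool.Agent.helper21.AU.QK0
import Pool.Agent.helper18.AU.QK1
import Pool.Agent.helper87.AU.QK2
import Pool.Agent.helper91.AU.QK3
import Pool.Agent.helper52.AU.QK4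
import Pool.Agent.helper87.AU.QK5
import Pool.Agent.helper13.AU.QL0
import Pool.Agent.helper46.AU.QL1
import Pool.Agent.helper65.AU.QL2
import Pool.Agent.helper4.AU.QM1
import Pool.Agent.helper1.AU.QN0
import Pool.Agent.helper43.AU.QN1
import Pool.Agent.helper45.AU.QN2
import Pool.Agent.helper92.AU.QR1
import Pool.Agent.helper99.AU.QR2
import Pool.Agent.helper20.AU.QR3
import Pool.Agent.helper97.AU.QR4
import Pool.Agent.helper99.AU.QR5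
import Pool.Agent.helper25.AU.QV0
import Pool.Agent.helper13.AU.QV1
import Pool.Agent.helper23.AU.QV2
import Pool.Agent.helper11.AU.QV4
import Pool.Agent.helper1.AU.QV5
import Pool.Agent.helper58.AU.QV6
import Pool.Agent.helper25.AU.QZ1
import Pool.Agent.helper61.AU.QZ3
import Pool.Agent.helper75.AU.AsmW

/-!
# Project au: assembly of the geometric part
-/

namespace Pool.Agent.helper53.AU

theorem aQV1 : QV1_stmt := QV1 QL0
theorem aQL1 : QL1_stmt := QL1 QL0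
theorem aQL2 : QL2_stmt := QL2 QL0
theorem aQZ1 : QZ1_stmt := QZ1 aQL1 QV2
theorem aQV4 : QV4_stmt := QV4 aQZ1
theorem aQK0 : QK0_stmt := QK0 QL0
theorem aQV0 : QV0_stmt := QV0 aQK0
theorem aQR1 : QR1_stmt := QR1 aQV0 aQV1
theorem aQZ3 : QZ3_stmt := QZ3 aQL2 aQV4 aQR1 aQZ1
theorem aQV5 : QV5_stmt := QV5 aQZ3 aQV4
theorem aQV6 : QV6_stmt := QV6 aQV4 aQV5
theorem aQR2 : QR2_stmt := QR2 QL0 aQL2 aQV4 aQV6 aQZ3 aQR1
theorem aQR3 : QR3_stmt := QR3 aQR1 aQV6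
theorem aQR4 : QR4_stmt := QR4 aQV1 aQR2 aQR3
theorem aQR5 : QR5_stmt := QR5 aQR2 aQR3
theorem aQA1 : QA1_stmt := QA1 aQV0 aQV1 aQR5
theorem aQA3 : QA3_stmt := QA3 QA2 aQR3
theorem aQN0 : QN0_stmt := QN0 QA2
theorem aQN1 : QN1_stmt := QN1 QA2
theorem aQN2 : QN2_stmt := QN2 aQV1 aQV4 aQV5 aQR4 QM1 aQN1
theorem aQK2 : QK2_stmt := QK2 aQK0
theorem aQK3 : QK3_stmt := QK3 QL0 aQK2
theorem aQK4 : QK4_stmt := QK4 QL0 aQZ3 aQV4 aQR4 aQR5 aQA1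
theorem aQK5 : QK5_stmt := QK5 aQV1 aQK4
theorem aQD0 : QD0_stmt := QD0 QA2 aQZ3
theorem aQD1 : QD1_stmt := QD1 aQV1 aQN0 aQN1 aQD0
theorem aQD2 : QD2_stmt := QD2 aQV0 aQV4 aQR4
theorem aQD3 : QD3_stmt := QD3 aQV4 aQZ3 aQD0
theorem aQD4 : QD4_stmt := QD4 aQN2 aQV4
theorem aQD6 : QD6_stmt := QD6 aQK3 aQK5 aQN0 aQN2 aQD0 aQD2 aQD3 aQD4 QD5
theorem aQH0 : QH0_stmt := QH0 aQV1 aQV4 aQK5 aQD1 aQD6 aQA3
theorem aQH1 : QH1_stmt := QH1 aQZ3 aQV4 aQV5 aQR5 aQA1 aQH0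
theorem aQF1 : QF1_stmt := QF1 aQV1
theorem aQF2 : QF2_stmt := QF2 aQV1 aQF1
theorem aQF3 : QF3_stmt := QF3 aQV1 aQF1 aQF2
theorem aQF4 : QF4_stmt := QF4 aQV1 aQF1
theorem aQF5 : QF5_stmt := QF5 aQF1 aQF2 aQF3 aQF4
theorem aQF6 : QF6_stmt := QF6 aQF3 aQF4 aQF5
theorem aQF7 : QF7_stmt := QF7 aQF4 aQF5
theorem aQF8 : QF8_stmt := QF8 aQF1 aQF4
theorem aQF9 : QF9_stmt := QF9 aQF1 aQF2 aQF3 aQF4 aQV1
theorem aQF10 : QF10_stmt := QF10 aQF8 aQF7 aQF9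
theorem aQF11 : QF11_stmt := QF11 aQV1 aQV4
theorem aQE1 : QE1_stmt := QE1 QL0
theorem aQE2 : QE2_stmt := QE2 aQE1
theorem aQE3 : QE3_stmt := QE3 aQE1 aQE2 aQR5 aQV0
theorem aQE4 : QE4_stmt := QE4 QV2
theorem aQE5 : QE5_stmt := QE5 aQR5 aQZ3 aQE1 aQE2 aQE4
theorem aQE6 : QE6_stmt := QE6 QK1 aQK2
theorem aHIL : HIL_stmt := HIL aQK5
theorem aQH3 : QH3_stmt := QH3 aHIL aQE1 aQE2 aQE5 aQF1
theorem aQH4 : QH4_stmt := QH4 aQR2 aQF11 aQE1 aQE2 aQE3 aQE4 aQE5 aQE6 aQH1 aQH3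
theorem aQH5 : QH5_stmt := QH5 aHIL aQV1 aQE1 aQE2 aQE5 aQE6 aQF1 aQF2 aQF3 aQF6

/-- the geometric part -/
theorem GEO : GEO_stmt := QG aQF2 aQF3 aQF6 aQF7 aQF10 aQF11 aQH4 aQH5

/-- the lower bound -/
theorem LOW : LOW_stmt := AsmW aQZ3 aQR2 aQA1 QA2 aQA3

end Pool.Agent.helper53.AU
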