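import Pool.Agent.helper87.AU.SpecQ1

/-!
# au:QA1: Apery bases
-/

namespace Pool.Agent.helper53.AU

open scoped Classical
open Polynomial (aeval)

theorem QA1_le {k F : Type} [Field k] [Field F] [Algebra k F]
    (hV0 : ∀ f : F, (∀ P : Place k F, P.Ge 0 f) → ∃ c : k, f = algebraMap k F c)
    (P₀ : Place k F) {f : F} (hf : f ∈ Reg P₀) (hf0 : f ≠ 0) : P₀.ord f ≤ 0 := by
  by_contra h
  push Not at h
  obtain ⟨c, rfl⟩ := hV0 f (fun P => by
    by_cases hP : P = P₀
    · subst hP; exact Or.inr h.le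
    · exact hf P hP)
  have hc : c ≠ 0 := fun hc => hf0 (by simp [hc])
  rw [P₀.ord_const c hc] at h
  omega

theorem QA1 (hV0 : QV0_stmt) (hV1 : QV1_stmt) (hR5 : QR5_stmt) : QA1_stmt := by
  intro k F _ _ _ _ hF P₀ x n hn hx hxo
  have hV0 := hV0 k F hF
  have hV1 := hV1 k F hF
  obtain ⟨C, hC⟩ := hR5 k F hF P₀
  have hx0 : x ≠ 0 := by
    rintro rfl
    rw [P₀.ord_zero] at hxo
    omega
  -- the pole numbers in the class of `i`
  have hex : ∀ i : Fin n, ∃ m : ℕ, m % n = (i : ℕ) ∧ ∃ f ∈ Reg P₀, f ≠ 0 ∧ P₀.ord f = -(m : ℤ) := by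
    intro i
    refine ⟨n * C + i, ?_, hC _ ?_⟩
    · rw [Nat.mul_add_mod, Nat.mod_eq_of_lt i.2]
    · nlinarith [Nat.zero_le (i : ℕ)]
  let μ : Fin n → ℕ := fun i => Nat.find (hex i)
  have hμ : ∀ i, μ i % n = (i : ℕ) ∧ ∃ f ∈ Reg P₀, f ≠ 0 ∧ P₀.ord f = -(μ i : ℤ) :=
    fun i => Nat.find_spec (hex i)
  have hmin : ∀ (i : Fin n) (m : ℕ), m % n = (i : ℕ) →
      (∃ f ∈ Reg P₀, f ≠ 0 ∧ P₀.ord f = -(m : ℤ)) → μ i ≤ m :=
    fun i m h1 h2 => Nat.find_min' (hex i) ⟨h1, h2⟩
  choose u hu using fun i => (hμ i).2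
  refine ⟨u, μ, ⟨hn, hx, hxo, fun i => (hu i).1, fun i => (hu i).2.1, fun i => (hu i).2.2,
    fun i => (hμ i).1, ?_⟩⟩
  have key : ∀ m : ℕ, ∀ f ∈ Reg P₀, f ≠ 0 → P₀.ord f = -(m : ℤ) →
      ∃ φ : Fin n → Polynomial k, f = ∑ i, aeval x (φ i) * u i := by
    intro m
    induction m using Nat.strong_induction_on with
    | _ m ih =>
      intro f hf hf0 hfo
      let i : Fin n := ⟨m % n, Nat.mod_lt m hn⟩
      have h1 : μ i ≤ m := hmin i m rfl ⟨f, hf, hf0, hfo⟩
      have h2 : μ i % n = m % n := (hμ i).1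
      obtain ⟨j, hj⟩ : ∃ j, m = μ i + n * j := by
        have h3 : n ∣ m - μ i := (Nat.modEq_iff_dvd' h1).mp h2
        obtain ⟨j, hj⟩ := h3
        exact ⟨j, by omega⟩
      set g := x ^ j * u i with hg
      have hg0 : g ≠ 0 := mul_ne_zero (pow_ne_zero _ hx0) (hu i).2.1
      have hgo : P₀.ord g = -(m : ℤ) := by
        rw [hg, P₀.ord_mul _ _ (pow_ne_zero _ hx0) (hu i).2.1, P₀.ord_pow hx0, hxo, (hu i).2.2]
        conv_rhs => rw [hj]
        push_cast
        ring
      have hgr : g ∈ Reg P₀ := mul_mem (pow_mem hx j) (hu i).1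
      obtain ⟨c, hc⟩ := hV1 P₀ (f / g) (Or.inr (by rw [P₀.ord_div hf0 hg0, hfo, hgo]; omega))
      have hc2 : P₀.Ge (1 + -(m : ℤ)) (f - algebraMap k F c * g) := by
        have h3 := hc.mul (P₀.ge_ord g)
        rw [hgo, sub_mul, div_mul_cancel₀ f hg0] at h3
        exact h3
      have hr : f - algebraMap k F c * g ∈ Reg P₀ :=
        sub_mem hf (mul_mem (Subalgebra.algebraMap_mem _ c) hgr)
      have hsingle : algebraMap k F c * g =
          ∑ l, aeval x ((Pi.single i (Polynomial.C c * Polynomial.X ^ j) :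
            Fin n → Polynomial k) l) * u l := by
        rw [Finset.sum_eq_single i]
        · simp [hg, mul_assoc]
        · intro l _ hl
          simp [Pi.single_eq_of_ne hl]
        · intro h
          exact absurd (Finset.mem_univ i) h
      by_cases hz : f - algebraMap k F c * g = 0
      · exact ⟨Pi.single i (Polynomial.C c * Polynomial.X ^ j), by
          rw [← hsingle]; exact sub_eq_zero.mp hz⟩
      · have h4 := hc2.le hz
        have h5 := QA1_le hV0 P₀ hr hz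
        obtain ⟨φ, hφ⟩ := ih ((-P₀.ord (f - algebraMap k F c * g)).toNat) (by omega) _ hr hz
          (by omega)
        refine ⟨φ + Pi.single i (Polynomial.C c * Polynomial.X ^ j), ?_⟩
        have h6 : f = (f - algebraMap k F c * g) + algebraMap k F c * g := by ring
        conv_lhs => rw [h6, hφ, hsingle]
        rw [← Finset.sum_add_distrib]
        refine Finset.sum_congr rfl fun l _ => ?_
        rw [Pi.add_apply, map_add, add_mul]
  intro f hf
  by_cases hf0 : f = 0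
  · exact ⟨fun _ => 0, by simp [hf0]⟩
  · have h5 := QA1_le hV0 P₀ hf hf0
    exact key ((-P₀.ord f).toNat) f hf hf0 (by omega)

end Pool.Agent.helper53.AU
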