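import Pool.Agent.helper87.AU.GDefs

/-!
# Project au (MP_97532f_ag), geometric part, specification 1:
# function fields in the style of Stichtenoth, chapter 1; derivations; the degree of `dx` is `2 g - 2`

Rules: file `Pool/Agent/<seat>/AU/XX.lean`, `import Pool.Agent.helper87.AU.SpecQ1`,
`namespace Pool.Agent.helper53.AU`, `theorem XX (h : YY_stmt) ... : XX_stmt`; every other statement of this file
may be taken as a hypothesis (all modules are independent). Auxiliary lemmas prefixed `XX_`.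
API of places (`Ge`, `ord_mul`, `ord_add_eq`, ...) in `GDefs.lean`.
-/

namespace Pool.Agent.helper53.AU

open scoped Classical IntermediateField
open Polynomial (aeval)

noncomputable section

/-! ## V: valuations -/

/-- QV1: the residue field is `k`.
Proof. If `f` is algebraic over `k` it is a constant. Otherwise suppose `P.ord (q(f)) = 0` for all nonzero polynomials `q` over
`k`. Then `P.ord` is trivial on `k(f)`. A uniformiser `t` is algebraic over `k(f)` (a function field has transcendence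
degree 1): `∑ q_i(f) t^i = 0`, `q_i` polynomials not all zero; the lowest term has strictly smallest order, contradiction
(`ord_add_eq`). So `0 < P.ord (q(f))` for some `q = c ∏ (T - c_i)`, and some factor `f - c_i` has positive order. -/
def QV1_stmt : Prop := ∀ (k F : Type) [Field k] [IsAlgClosed k] [Field F] [Algebra k F], IsFF k F →
  ∀ (P : Place k F) (f : F), P.Ge 0 f → ∃ c : k, P.Ge 1 (f - algebraMap k F c)

/-- QV2: weak approximation (distinct normalised discrete valuations of a field are independent).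
Proof (Stichtenoth 1.3.1). (a) For `P ≠ P'` the valuation rings are incomparable (a discrete valuation ring is maximal
and determines the normalised valuation), so there is `z` with `ord_P z > 0 > ord_P' z` (quotient of an element of
`O_P \ O_P'` and one of `O_P' \ O_P`). (b) Induction: for `P₁ ∉ {P₂..P_n}` there is `z` with `ord_{P₁} z > 0`, `ord_{P_i} z < 0`
(`z = y + y' ^ r` for large `r`). (c) `w = 1 / (1 + z ^ r)` is close to 1 at `P₁` and close to 0 at the other places. (d)
`f = ∑ w_P a_P`. -/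
def QV2_stmt : Prop := ∀ (k F : Type) [Field k] [Field F] [Algebra k F]
  (S : Finset (Place k F)) (N : ℤ) (a : Place k F → F), ∃ f : F, ∀ P ∈ S, P.Ge N (f - a P)

/-- QL0: `F / k(z)` is finite for every transcendental `z` (transcendence degree one: `x` is algebraic over
`k(z)` by the exchange property, so `k(x, z)` is finite over `k(z)` and `F` is finite over `k(x)`). -/
def QL0_stmt : Prop := ∀ (k F : Type) [Field k] [Field F] [Algebra k F], IsFF k F →
  ∀ z : F, Transcendental k z → FiniteDimensional k⟮z⟯ F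

/-- QL1: elements independent over the polynomials in `z` are at most `[F : k(z)]` many (clear denominators:
they are independent over `k(z)`). -/
def QL1_stmt : Prop := ∀ (k F : Type) [Field k] [Field F] [Algebra k F], IsFF k F →
  ∀ z : F, Transcendental k z → ∀ (ι : Type) [Fintype ι] (u : ι → F),
    (∀ φ : ι → Polynomial k, ∑ i, aeval z (φ i) * u i = 0 → ∀ i, φ i = 0) →
    Fintype.card ι ≤ degx k z

/-- QL2: there are `[F : k(z)]` elements independent over the polynomials in `z`, which generate `F` up to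
denominators. -/
def QL2_stmt : Prop := ∀ (k F : Type) [Field k] [Field F] [Algebra k F], IsFF k F →
  ∀ z : F, Transcendental k z → ∃ u : Fin (degx k z) → F,
    (∀ φ : Fin (degx k z) → Polynomial k, ∑ i, aeval z (φ i) * u i = 0 → ∀ i, φ i = 0) ∧
    ∀ f : F, ∃ (h : Polynomial k) (φ : Fin (degx k z) → Polynomial k), h ≠ 0 ∧
      aeval z h * f = ∑ i, aeval z (φ i) * u i

/-- QZ1: the number of zeros is at most `[F : k(z)]`.
Proof (Stichtenoth 1.3.3). By QV2 choose for `P ∈ S`, `0 ≤ j < n_P = P.ord z` elements `u_{P,j}` with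
`P.ord u_{P,j} = j` (approximate `P.unif ^ j` to order `j + 1`) and `P'.ord u_{P,j} ≥ n_{P'}` for `P' ∈ S`, `P' ≠ P`. They are
independent over polynomials in `z`: in a relation (after dividing by a power of `z`) some `φ_{P,j}(0) ≠ 0`; take such a `P`
and the least such `j`: then the term `(P, j)` has order `j` at `P` and all others have order `> j`. Use QL1. -/
def QZ1_stmt : Prop := ∀ (k F : Type) [Field k] [IsAlgClosed k] [Field F] [Algebra k F], IsFF k F →
  ∀ z : F, Transcendental k z → ∀ S : Finset (Place k F), (∀ P ∈ S, 0 < P.ord z) →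
    ∑ P ∈ S, P.ord z ≤ (degx k z : ℤ)

/-- QV4: only finitely many zeros and poles (QZ1 for `f` and `f⁻¹`; algebraic elements are constants). -/
def QV4_stmt : Prop := ∀ (k F : Type) [Field k] [IsAlgClosed k] [Field F] [Algebra k F], IsFF k F →
  ∀ f : F, f ≠ 0 → (Function.support fun P : Place k F => P.ord f).Finite

/-- QK0: a separating element exists (`k` is perfect; `FieldTheory/SeparablyGenerated`:
`exists_isTranscendenceBasis_and_isSeparable_of_perfectField` or similar). -/
def QK0_stmt : Prop := ∀ (k F : Type) [Field k] [IsAlgClosed k] [Field F] [Algebra k F], IsFF k F →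
  ∃ x : F, Sep k x

/-- QV0: a function without poles is constant.
Proof. Let `x` be separating (QK0). The integral closure `B` of `k[x]` in `F` is a Dedekind domain with quotient
field `F`; every height one prime of `B` gives a `Place`; so `f ∈ B`
(`IsDedekindDomain.HeightOneSpectrum.mem_integers_of_valuation_le_one`). The same for `x⁻¹`. The coefficients of the minimal
polynomial of `f` over `k(x)` lie in `k[x] ∩ k[x⁻¹] = k`, so `f` is algebraic over `k`. -/
def QV0_stmt : Prop := ∀ (k F : Type) [Field k] [IsAlgClosed k] [Field F] [Algebra k F], IsFF k F →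
  ∀ f : F, (∀ P : Place k F, P.Ge 0 f) → ∃ c : k, f = algebraMap k F c

/-! ## R: Riemann-Roch spaces -/

/-- QR1: Proof: `L(0) = k` (QV0); for `D' = D + P`, `z` with `P.ord z = -(D P + 1)`, the map `f ↦ residue of f / z` (QV1) is a
linear form on `L(D + P)` with kernel `L(D)`; induction; every `D` is `≤` an effective divisor. -/
def QR1_stmt : Prop := ∀ (k F : Type) [Field k] [IsAlgClosed k] [Field F] [Algebra k F], IsFF k F →
  (∀ D : Place k F →₀ ℤ, FiniteDimensional k (RR D)) ∧ ell (0 : Place k F →₀ ℤ) = 1 ∧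
  ∀ D D' : Place k F →₀ ℤ, D ≤ D' → ell D ≤ ell D' ∧
    (ell D' : ℤ) ≤ (ell D : ℤ) + (degD D' - degD D)

/-- QZ3: the number of zeros and of poles is `[F : k(z)]`.
Proof (Stichtenoth 1.4.11). Poles: `≤` by QZ1 for `z⁻¹`. `≥`: let `u_i` be as in QL2, `C ≥ 0` a divisor with `u_i ∈ L(C)`,
`A` the pole divisor. `z^j u_i ∈ L(r A + C)` for `0 ≤ j ≤ r` are independent, so `n (r + 1) ≤ l(r A + C) ≤ r deg A + deg C + 1`
for all `r`, so `n ≤ deg A`. Zeros: poles of `z⁻¹`, `k(z⁻¹) = k(z)`. -/
def QZ3_stmt : Prop := ∀ (k F : Type) [Field k] [IsAlgClosed k] [Field F] [Algebra k F], IsFF k F →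
  ∀ z : F, Transcendental k z →
    ∑ᶠ P : Place k F, max (P.ord z) 0 = (degx k z : ℤ) ∧
    ∑ᶠ P : Place k F, max (-P.ord z) 0 = (degx k z : ℤ)

/-- QV5: the degree of a principal divisor is 0 (QZ3, QV4; constants are trivial). -/
def QV5_stmt : Prop := ∀ (k F : Type) [Field k] [IsAlgClosed k] [Field F] [Algebra k F], IsFF k F →
  ∀ f : F, f ≠ 0 → ∑ᶠ P : Place k F, P.ord f = 0

/-- QV6: principal divisors; `L(D + (f)) = f⁻¹ L(D)`. -/
def QV6_stmt : Prop := ∀ (k F : Type) [Field k] [IsAlgClosed k] [Field F] [Algebra k F], IsFF k F →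
  ∀ f : F, f ≠ 0 → (∀ P : Place k F, prin (k := k) f P = P.ord f) ∧
    degD (prin (k := k) f) = 0 ∧ ∀ D : Place k F →₀ ℤ, ell (D + prin f) = ell D

/-- QR2: the genus exists (Riemann).
Proof (Stichtenoth 1.4.14): `A` = pole divisor of some transcendental `x`, as in QZ3 `l(r A + C) ≥ n (r + 1)`, so
`l(r A) ≥ n (r + 1) - deg C`, so `deg (r A) - l(r A) ≤ c` for all `r ≥ 0`. For any `D` let `D₁ ≥ D`, `D₁ ≥ 0`; for large `r`
`l(r A - D₁) ≥ l(r A) - deg D₁ > 0`; `0 ≠ z ∈ L(r A - D₁)`, so `D₁ - (z) ≤ r A`, and `deg D - l(D) ≤ deg D₁ - l(D₁) ≤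
deg (r A) - l(r A) ≤ c` (QR1, QV6). The set of the integers `deg D + 1 - l(D)` is bounded and contains 0 (`D = 0`). -/
def QR2_stmt : Prop := ∀ (k F : Type) [Field k] [IsAlgClosed k] [Field F] [Algebra k F], IsFF k F →
  ∃ g : ℕ, IsGenus k F g

/-- QR3: Riemann's theorem.
Proof: first part by definition of the genus. Second: let `D₀` attain the maximum, `c = deg D₀ + g`; for
`deg D ≥ c` we have `l(D - D₀) ≥ 1`, so `D + (z) ≥ D₀` for some `z`, and `deg D - l(D) ≥ deg D₀ - l(D₀) = g - 1`. -/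
def QR3_stmt : Prop := ∀ (k F : Type) [Field k] [IsAlgClosed k] [Field F] [Algebra k F], IsFF k F →
  ∀ g : ℕ, IsGenus k F g → (∀ D : Place k F →₀ ℤ, degD D + 1 - (g : ℤ) ≤ (ell D : ℤ)) ∧
    ∃ c : ℤ, ∀ D : Place k F →₀ ℤ, c ≤ degD D → (ell D : ℤ) = degD D + 1 - (g : ℤ)

/-- QR4: strong approximation outside one place.
Proof: for large `r` (QR3) the spaces `L(r P₀)` and `L(r P₀ - N ∑_{P ∈ S} P)` have dimensions differing by `N |S|`, and the
quotient embeds in the `k`-space `∏_{P ∈ S} O_P / m_P^N` of dimension `N |S|` (QV1), so `L(r P₀)` maps onto it. -/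
def QR4_stmt : Prop := ∀ (k F : Type) [Field k] [IsAlgClosed k] [Field F] [Algebra k F], IsFF k F →
  ∀ (P₀ : Place k F) (S : Finset (Place k F)) (N : ℕ) (a : Place k F → F), P₀ ∉ S →
    (∀ P ∈ S, P.Ge 0 (a P)) → ∃ f ∈ Reg P₀, ∀ P ∈ S, P.Ge N (f - a P)

/-- QR5: all large integers are pole numbers (QR3 for `n P₀` and `(n - 1) P₀`). -/
def QR5_stmt : Prop := ∀ (k F : Type) [Field k] [IsAlgClosed k] [Field F] [Algebra k F], IsFF k F →
  ∀ P₀ : Place k F, ∃ C : ℕ, ∀ n : ℕ, C ≤ n → ∃ f ∈ Reg P₀, f ≠ 0 ∧ P₀.ord f = -(n : ℤ)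

/-! ## A: Apery bases -/

/-- QA1: for every `x` with one pole there is an Apery basis.
Proof: QR5: every class mod `n` contains a pole number; let `μ i` be the smallest (and `u i` a function with this pole
order). Spanning: induction on the pole order of `f ∈ Reg P₀`: if it is `m = i` mod `n`, `m = μ i + n j`, subtract
`c x^j u i` (QV1) to lower the pole order; a nonzero `f ∈ Reg P₀` has `P₀.ord f ≤ 0` (QV0). -/
def QA1_stmt : Prop := ∀ (k F : Type) [Field k] [IsAlgClosed k] [Field F] [Algebra k F], IsFF k F →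
  ∀ (P₀ : Place k F) (x : F) (n : ℕ), 0 < n → x ∈ Reg P₀ → P₀.ord x = -(n : ℤ) →
    ∃ (u : Fin n → F) (μ : Fin n → ℕ), OneP P₀ x n u μ

/-- QA2: pole orders of combinations: the terms have distinct pole orders (different mod `n`). -/
def QA2_stmt : Prop := ∀ (k F : Type) [Field k] [Field F] [Algebra k F]
  (P₀ : Place k F) (x : F) (n : ℕ) (u : Fin n → F) (μ : Fin n → ℕ), OneP P₀ x n u μ →
    ∀ φ : Fin n → Polynomial k, (∃ i, φ i ≠ 0) →
      ∑ i, aeval x (φ i) * u i ≠ 0 ∧
      (∀ i, φ i ≠ 0 → (n * (φ i).natDegree + μ i : ℤ) ≤ -P₀.ord (∑ i, aeval x (φ i) * u i)) ∧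
      ∃ i, φ i ≠ 0 ∧ (n * (φ i).natDegree + μ i : ℤ) = -P₀.ord (∑ i, aeval x (φ i) * u i)

/-- QA3: the genus from an Apery basis: `μ i = n q_i + i`, `g = ∑ q_i`.
Proof: by QA2 `l(r P₀)` is the number of pairs `(i, j)` with `n j + μ i ≤ r`; for `r = n M - 1` this is `∑ (M - q_i)`
(`M` large) `= r + 1 - ∑ q_i`; compare with QR3. -/
def QA3_stmt : Prop := ∀ (k F : Type) [Field k] [IsAlgClosed k] [Field F] [Algebra k F], IsFF k F →
  ∀ g : ℕ, IsGenus k F g → ∀ (P₀ : Place k F) (x : F) (n : ℕ) (u : Fin n → F) (μ : Fin n → ℕ),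
    OneP P₀ x n u μ → 2 * ∑ i, (μ i : ℤ) = n * (2 * (g : ℤ) + n - 1)

/-! ## M, N: matrices and norms -/

/-- QM1: linear algebra over `k[X]`. Proof: Smith normal form: in suitable bases of the free module and of the
range of `A` the range is `∑ d_i k[X] e_i`, `det A ~ ∏ d_i`; the quotient is a quotient of
`⊕ k[X] / (d_i, (X - a)^N)`, of dimension `≤ ∑ rootMultiplicity a d_i`. -/
def QM1_stmt : Prop := ∀ (k : Type) [Field k] (n N : ℕ) (A : Matrix (Fin n) (Fin n) (Polynomial k))
  (a : k) (U : Submodule (Polynomial k) (Fin n → Polynomial k)), A.det ≠ 0 →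
  (∀ v, A.mulVec v ∈ U) →
  (∀ v : Fin n → Polynomial k, (Polynomial.X - Polynomial.C a) ^ N • v ∈ U) →
    Module.Finite k ((Fin n → Polynomial k) ⧸ U) ∧
    Module.finrank k ((Fin n → Polynomial k) ⧸ U) ≤ Polynomial.rootMultiplicity a A.det

/-- QN0: the matrix of a multiplication exists and is unique (QA2). It is multiplicative and additive by
uniqueness. -/
def QN0_stmt : Prop := ∀ (k F : Type) [Field k] [Field F] [Algebra k F]
  (P₀ : Place k F) (x : F) (n : ℕ) (u : Fin n → F) (μ : Fin n → ℕ), OneP P₀ x n u μ →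
    ∀ h ∈ Reg P₀, ∃! A : Matrix (Fin n) (Fin n) (Polynomial k), MulMat x u h A

/-- QN1: degree of the norm and of the trace. Let `ν` be the pole order of `h`. By QA2 `n deg A i j + μ i ≤ ν + μ j` with
equality exactly for one `i = i(j) = ν + j` mod `n`; so only one permutation contributes degree `ν` to the determinant
(the total `∑ (ν + μ (σ i) - μ i) / n = ν`). The diagonal entries have degree `≤ ν / n`; if `ν = n m` and
`h - c x^m` has smaller pole order then the coefficient of `X^m` in `A j j` is `c`. -/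
def QN1_stmt : Prop := ∀ (k F : Type) [Field k] [IsAlgClosed k] [Field F] [Algebra k F], IsFF k F →
  ∀ (P₀ : Place k F) (x : F) (n : ℕ) (u : Fin n → F) (μ : Fin n → ℕ), OneP P₀ x n u μ →
    ∀ h ∈ Reg P₀, h ≠ 0 → ∀ A : Matrix (Fin n) (Fin n) (Polynomial k), MulMat x u h A →
      A.det ≠ 0 ∧ (A.det.natDegree : ℤ) = -P₀.ord h ∧
      (n * A.trace.natDegree : ℤ) ≤ -P₀.ord h ∧
      ∀ (m : ℕ) (c : k), -P₀.ord h = n * m → P₀.Ge (P₀.ord h + 1) (h - algebraMap k F c * x ^ m) →
        A.trace.coeff m = n * c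

/-- QN2: the norm, locally: `v_a(N h) = ∑_{P | a} P.ord h`.
Proof: `≥` by QM1: `Reg P₀ → ∏_{P | a} O_P / m_P^{ord_P h}` is onto (QR4), kills `h Reg P₀` and `(x - a)^N Reg P₀`; its target
has dimension `∑_{P|a} P.ord h` (QV1). Sum over `a`: `∑_a v_a(det A) = natDegree (det A) = - P₀.ord h` (QN1) `= ∑_{P ≠ P₀}
P.ord h` (QV5), so all inequalities are equalities. -/
def QN2_stmt : Prop := ∀ (k F : Type) [Field k] [IsAlgClosed k] [Field F] [Algebra k F], IsFF k F →
  ∀ (P₀ : Place k F) (x : F) (n : ℕ) (u : Fin n → F) (μ : Fin n → ℕ), OneP P₀ x n u μ →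
    ∀ h ∈ Reg P₀, h ≠ 0 → ∀ A : Matrix (Fin n) (Fin n) (Polynomial k), MulMat x u h A → ∀ a : k,
      (Polynomial.rootMultiplicity a A.det : ℤ) =
        ∑ᶠ P : Place k F, if 0 < P.ord (x - algebraMap k F a) then P.ord h else 0

/-! ## K: derivations -/

/-- QK1: a nonzero derivation exists. Proof: `x` separating (QK0); `Ω[k(x)/k]` is one-dimensional, `F / k(x)` is formally etale, so
`Ω[F/k]` is one-dimensional over `F`. -/
def QK1_stmt : Prop := ∀ (k F : Type) [Field k] [IsAlgClosed k] [Field F] [Algebra k F], IsFF k F →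
  ∃ D : Derivation k F F, D ≠ 0

/-- QK2: and it is unique up to a factor. Proof: `x` separating; a derivation vanishing at `x` vanishes on `k(x)`, so on the
separable algebraic extension `F` (minimal polynomials); so `D x ≠ 0` and `D' = (D' x / D x) D`. -/
def QK2_stmt : Prop := ∀ (k F : Type) [Field k] [IsAlgClosed k] [Field F] [Algebra k F], IsFF k F →
  ∀ D D' : Derivation k F F, D ≠ 0 → ∃ c : F, D' = c • D

/-- QK3: Proof: `D x ≠ 0` implies `x` transcendental (constants are killed), so `F / k(x)` is finite (QL0). All derivations of `F`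
over `k(x)` are 0 (QK2), so `Ω[F/k(x)] = 0`, so `F / k(x)` is formally unramified, so separable
(`Algebra.FormallyUnramified` and `Algebra.IsSeparable` for essentially finite type field extensions). Conversely: if
`D x = 0` then `D` vanishes on `k(x)` and on the separable extension `F`. -/
def QK3_stmt : Prop := ∀ (k F : Type) [Field k] [IsAlgClosed k] [Field F] [Algebra k F], IsFF k F →
  ∀ D : Derivation k F F, D ≠ 0 → ∀ x : F, D x ≠ 0 ↔ Sep k x

/-- QK4: a derivation is bounded on the valuation ring.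
Proof: choose a place `P₀ ≠ P` (QZ3: there are infinitely many places: zeros of `z - c`), `x ∈ Reg P₀` nonconstant (QR5) and a finite
generating system `u` of `Reg P₀` over `k[x]` (QA1). `D (∑ φ_i(x) u_i) = ∑ (φ_i'(x) D x u_i + φ_i(x) D u_i)` has order at least
`-N` at `P`. For `f ∈ O_P` there is `s ∈ Reg P₀` with `P.ord s = 0` and `s f ∈ Reg P₀` (QR4: `s = 1` mod `m_P`, `s` vanishing to high order at the
other poles of `f`), and `D f = (D (s f) - f D s) / s`. -/
def QK4_stmt : Prop := ∀ (k F : Type) [Field k] [IsAlgClosed k] [Field F] [Algebra k F], IsFF k F →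
  ∀ (D : Derivation k F F) (P : Place k F), ∃ N : ℕ, ∀ f : F, P.Ge 0 f → P.Ge (-(N : ℤ)) (D f)

/-- QK5: derivations and orders.
Proof: `f ∈ O_P`, `f = c_0 + c_1 t + ... + c_j t^j + t^(j+1) h` (QV1), so `D f = (...) D t + t^(j+1) D h`, and the last term has order
`≥ j + 1 - N` (QK4), `j` arbitrary. If `D t = 0` then `D = 0` on `O_P`, so on `F`. So `D t ≠ 0` and `D (O_P)` is in `D t O_P`.
Then `f = t^m v`: `D f = m t^(m-1) v D t + t^m D v`, `v ∈ O_P`. -/
def QK5_stmt : Prop := ∀ (k F : Type) [Field k] [IsAlgClosed k] [Field F] [Algebra k F], IsFF k F →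
  ∀ (D : Derivation k F F), D ≠ 0 → ∀ (P : Place k F) (t : F), P.Unif t →
    D t ≠ 0 ∧ P.ord (D t) = P.ord (D P.unif) ∧
    (∀ (m : ℤ) (f : F), P.Ge m f → P.Ge (m - 1 + P.ord (D t)) (D f)) ∧
    (∀ f : F, f ≠ 0 → ((P.ord f : ℤ) : k) ≠ 0 → D f ≠ 0 ∧ P.ord (D f) = P.ord f - 1 + P.ord (D t))

/-! ## D: discriminants -/

/-- QD0: trace form. For `h ∈ Reg P₀` the trace of `h` over `k(x)` is the polynomial `trace A` in `x`, the norm is
`det A` (the `u i` are a basis of `F / k(x)`: independent by QA2 and `n = [F : k(x)]` many by QZ3). -/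
def QD0_stmt : Prop := ∀ (k F : Type) [Field k] [IsAlgClosed k] [Field F] [Algebra k F], IsFF k F →
  ∀ (P₀ : Place k F) (x : F) (n : ℕ) (u : Fin n → F) (μ : Fin n → ℕ), OneP P₀ x n u μ →
    Transcendental k x ∧ degx k x = n ∧ LinearIndependent k⟮x⟯ u ∧
    ∀ h ∈ Reg P₀, ∀ A : Matrix (Fin n) (Fin n) (Polynomial k), MulMat x u h A →
      ((Algebra.trace k⟮x⟯ F h : k⟮x⟯) : F) = aeval x A.trace ∧
      ((Algebra.norm k⟮x⟯ h : k⟮x⟯) : F) = aeval x A.det

/-- QD1: the degree of the discriminant when `n` is prime to the characteristic.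
Proof: `Δ` = determinant of the matrix `M i j = trace (matrix of u i u j)`. By QN1 `n deg M i j ≤ μ i + μ j`, with equality exactly if
`i + j = 0` mod `n` (for such a pair the leading coefficient is `n c ≠ 0`; otherwise `μ i + μ j` is not divisible by `n`). Only the
permutation `i ↦ -i` contributes the full degree `(∑ (μ i + μ (-i))) / n = 2 ∑ μ i / n`. -/
def QD1_stmt : Prop := ∀ (k F : Type) [Field k] [IsAlgClosed k] [Field F] [Algebra k F], IsFF k F →
  ∀ (P₀ : Place k F) (x : F) (n : ℕ) (u : Fin n → F) (μ : Fin n → ℕ), OneP P₀ x n u μ →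
    (n : k) ≠ 0 → ∃ Δ : Polynomial k, Δ ≠ 0 ∧
      ((Algebra.discr k⟮x⟯ u : k⟮x⟯) : F) = aeval x Δ ∧ (n : ℤ) * Δ.natDegree = 2 * ∑ i, (μ i : ℤ)

/-- QD2: a local generator: for every `a` there is `α ∈ Reg P₀` such that for all `P` above `a` the function `α - c_P` is a
uniformiser, the `c_P` being distinct (QR4, `k` infinite; finitely many `P`: QV4). -/
def QD2_stmt : Prop := ∀ (k F : Type) [Field k] [IsAlgClosed k] [Field F] [Algebra k F], IsFF k F →
  ∀ (P₀ : Place k F) (x : F), x ∈ Reg P₀ → Transcendental k x → ∀ a : k,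
    ∃ α ∈ Reg P₀, ∃ c : Place k F → k,
      (∀ P : Place k F, 0 < P.ord (x - algebraMap k F a) → P.Unif (α - algebraMap k F (c P))) ∧
      ∀ P P' : Place k F, 0 < P.ord (x - algebraMap k F a) → 0 < P'.ord (x - algebraMap k F a) →
        c P = c P' → P = P'

/-- QD3: with `α` as in QD2: `1, α, ..., α^(n-1)` is a basis of `Reg P₀` locally at `a`.
Proof: let `V` be the matrix of the `α^j` in the basis `u`. If `(det V)(a) = 0` there are constants `g_j`, not all zero, with
`∑ g_j V i j (a) = 0` for all `i`, so `g(α) = ∑ g_j α^j ∈ (x - a) Reg P₀`, so `P.ord g(α) ≥ e_P = P.ord (x - a)` for all `P | a`. But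
`P.ord g(α)` is the multiplicity of the root `c_P` of `g`, so `deg g ≥ ∑ e_P = n` (QZ3), a contradiction. The discriminants: base
change. -/
def QD3_stmt : Prop := ∀ (k F : Type) [Field k] [IsAlgClosed k] [Field F] [Algebra k F], IsFF k F →
  ∀ (P₀ : Place k F) (x : F) (n : ℕ) (u : Fin n → F) (μ : Fin n → ℕ), OneP P₀ x n u μ →
    ∀ (a : k) (α : F) (c : Place k F → k), α ∈ Reg P₀ →
      (∀ P : Place k F, 0 < P.ord (x - algebraMap k F a) → P.Unif (α - algebraMap k F (c P))) →
      (∀ P P' : Place k F, 0 < P.ord (x - algebraMap k F a) → 0 < P'.ord (x - algebraMap k F a) →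
        c P = c P' → P = P') →
      ∃ W : Polynomial k, W.eval a ≠ 0 ∧ LinearIndependent k⟮x⟯ (fun j : Fin n => α ^ (j : ℕ)) ∧
        ((Algebra.discr k⟮x⟯ (fun j : Fin n => α ^ (j : ℕ)) : k⟮x⟯) : F) =
          aeval x (W ^ 2) * ((Algebra.discr k⟮x⟯ u : k⟮x⟯) : F)

/-- QD4: with `α` as in QD2: the equation of `α`.
`f` = characteristic polynomial of the matrix of `α`, monic of degree `n` in `T` over `k[X]` (here a polynomial with
coefficients in `Polynomial k`), `f(x, α) = 0`. Write `fT`, `fx` for the values at `(x, α)` of the partial derivatives. Then `P.ord fx = 0` for all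
`P` above `a`: `f(a, T)` is monic of degree `n` and `f(a, α) = f(a, α) - f(x, α) ∈ (x - a) Reg P₀` has order `≥ e_P`; the order is the multiplicity
of the root `c_P`, and `∑ e_P = n`, so all these are equalities; so `f(x, α) - f(a, α) = (x - a) h(x, α)` has `P.ord h(x, α) = 0`, and
`f_x = h + (x - a) h_x`. Moreover `fT D α + fx D x = 0` (apply `D` to `f(x, α) = 0`). -/
def QD4_stmt : Prop := ∀ (k F : Type) [Field k] [IsAlgClosed k] [Field F] [Algebra k F], IsFF k F →
  ∀ (P₀ : Place k F) (x : F) (n : ℕ) (u : Fin n → F) (μ : Fin n → ℕ), OneP P₀ x n u μ →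
    ∀ (a : k) (α : F) (c : Place k F → k), α ∈ Reg P₀ →
      (∀ P : Place k F, 0 < P.ord (x - algebraMap k F a) → P.Unif (α - algebraMap k F (c P))) →
      (∀ P P' : Place k F, 0 < P.ord (x - algebraMap k F a) → 0 < P'.ord (x - algebraMap k F a) →
        c P = c P' → P = P') →
      ∃ f : Polynomial (Polynomial k), f.Monic ∧ f.natDegree = n ∧
        Polynomial.eval₂ (aeval x : Polynomial k →ₐ[k] F).toRingHom α f = 0 ∧
        ∃ fx fT : F, fT = Polynomial.eval₂ (aeval x : Polynomial k →ₐ[k] F).toRingHom α f.derivative ∧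
          (∀ D : Derivation k F F, fT * D α + fx * D x = 0) ∧ fT ∈ Reg P₀ ∧
          ∀ P : Place k F, 0 < P.ord (x - algebraMap k F a) → fx ≠ 0 ∧ P.ord fx = 0

/-- QD5: the discriminant of a power basis is the norm of the derivative, `x` separating
(`Algebra.discr_powerBasis_eq_norm`; the minimal polynomial of `α` over `k(x)` is `f` because the `α^j` are independent). -/
def QD5_stmt : Prop := ∀ (k F : Type) [Field k] [IsAlgClosed k] [Field F] [Algebra k F], IsFF k F →
  ∀ (x : F) (n : ℕ) (α : F), Sep k x → degx k x = n →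
    LinearIndependent k⟮x⟯ (fun j : Fin n => α ^ (j : ℕ)) →
    ∀ f : Polynomial (Polynomial k), f.Monic → f.natDegree = n →
      Polynomial.eval₂ (aeval x : Polynomial k →ₐ[k] F).toRingHom α f = 0 →
      ((Algebra.discr k⟮x⟯ (fun j : Fin n => α ^ (j : ℕ)) : k⟮x⟯) : F) =
          ((Algebra.norm k⟮x⟯
            (Polynomial.eval₂ (aeval x : Polynomial k →ₐ[k] F).toRingHom α f.derivative) : k⟮x⟯) : F) ∨
      ((Algebra.discr k⟮x⟯ (fun j : Fin n => α ^ (j : ℕ)) : k⟮x⟯) : F) =
          -((Algebra.norm k⟮x⟯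
            (Polynomial.eval₂ (aeval x : Polynomial k →ₐ[k] F).toRingHom α f.derivative) : k⟮x⟯) : F)

/-- QD6: the discriminant, locally: `v_a(Δ) = ∑_{P | a} d_P`.
Proof: QD2, QD3, QD4, QD5, QN2 for `h = fT`: `v_a(Δ) = v_a(N fT) = ∑_{P|a} P.ord fT`, and `P.ord fT = P.ord fx + P.ord (D x) - P.ord (D α) =
P.ord (D x) - P.ord (D P.unif)` since `α - c_P` is a uniformiser (QK5). Note `D x ≠ 0` by QK5 at `P₀`, and `x` is separating by QK3. -/
def QD6_stmt : Prop := ∀ (k F : Type) [Field k] [IsAlgClosed k] [Field F] [Algebra k F], IsFF k F →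
  ∀ (P₀ : Place k F) (x : F) (n : ℕ) (u : Fin n → F) (μ : Fin n → ℕ), OneP P₀ x n u μ →
    (n : k) ≠ 0 → ∀ D : Derivation k F F, D ≠ 0 → ∀ Δ : Polynomial k, Δ ≠ 0 →
      ((Algebra.discr k⟮x⟯ u : k⟮x⟯) : F) = aeval x Δ → ∀ a : k,
      (Polynomial.rootMultiplicity a Δ : ℤ) =
        ∑ᶠ P : Place k F, if 0 < P.ord (x - algebraMap k F a) then P.dord D x else 0

/-! ## H: the degree of `dx` -/

/-- QH0: `deg (dx) = 2 g - 2`, special case: `x` has one pole, of order prime to the characteristic.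
Proof: `dord ≥ 0` outside `P₀` (QK5), every `P ≠ P₀` lies above exactly one `a` (QV1), so `∑_{P ≠ P₀} dord = ∑_a v_a(Δ) =
natDegree Δ = 2 ∑ μ i / n` (QD1, QD6), `dord P₀ = - n - 1` (QK5), `2 ∑ μ i = n (2 g + n - 1)` (QA3). -/
def QH0_stmt : Prop := ∀ (k F : Type) [Field k] [IsAlgClosed k] [Field F] [Algebra k F], IsFF k F →
  ∀ g : ℕ, IsGenus k F g → ∀ (P₀ : Place k F) (x : F) (n : ℕ) (u : Fin n → F) (μ : Fin n → ℕ),
    OneP P₀ x n u μ → (n : k) ≠ 0 → ∀ D : Derivation k F F, D ≠ 0 →
      D x ≠ 0 ∧ (Function.support fun P : Place k F => P.dord D x).Finite ∧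
      ∑ᶠ P : Place k F, P.dord D x = 2 * (g : ℤ) - 2

/-- QH1: `deg (dz) = 2 g - 2` for all `z` with `dz ≠ 0`.
Proof: choose `x` as in QH0 (QR5, QA1), `P.dord D z - P.dord D x = P.ord (D z / D x)`, QV4, QV5. -/
def QH1_stmt : Prop := ∀ (k F : Type) [Field k] [IsAlgClosed k] [Field F] [Algebra k F], IsFF k F →
  ∀ g : ℕ, IsGenus k F g → ∀ D : Derivation k F F, ∀ z : F, D z ≠ 0 →
      (Function.support fun P : Place k F => P.dord D z).Finite ∧
      ∑ᶠ P : Place k F, P.dord D z = 2 * (g : ℤ) - 2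

end

end Pool.Agent.helper53.AU
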