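import Pool.Agent.helper53.AU.Defs

/-!
# Project au (MP_97532f_ag), geometric part: basic API of places, definitions
-/

namespace Pool.Agent.helper53.AU

open scoped Classical

noncomputable section

variable {k F : Type} [Field k] [Field F] [Algebra k F]

namespace Place

theorem ord_one (P : Place k F) : P.ord 1 = 0 := by
  have h := P.ord_mul 1 1 one_ne_zero one_ne_zero
  rw [mul_one] at h
  omega

theorem ord_inv (P : Place k F) {a : F} (ha : a ≠ 0) : P.ord a⁻¹ = -P.ord a := by
  have h := P.ord_mul a a⁻¹ ha (inv_ne_zero ha)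
  rw [mul_inv_cancel₀ ha, P.ord_one] at h
  omega

theorem ord_div (P : Place k F) {a b : F} (ha : a ≠ 0) (hb : b ≠ 0) :
    P.ord (a / b) = P.ord a - P.ord b := by
  rw [div_eq_mul_inv, P.ord_mul a b⁻¹ ha (inv_ne_zero hb), P.ord_inv hb]
  ring

theorem ord_pow (P : Place k F) {a : F} (ha : a ≠ 0) (n : ℕ) : P.ord (a ^ n) = n * P.ord a := by
  induction n with
  | zero => simp [P.ord_one]
  | succ n ih =>
    rw [pow_succ, P.ord_mul _ _ (pow_ne_zero n ha) ha, ih]
    push_cast
    ring

theorem ord_zpow (P : Place k F) {a : F} (ha : a ≠ 0) (n : ℤ) : P.ord (a ^ n) = n * P.ord a := by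
  cases n with
  | ofNat n => simpa using P.ord_pow ha n
  | negSucc n =>
    rw [zpow_negSucc, P.ord_inv (pow_ne_zero _ ha), P.ord_pow ha]
    push_cast
    simp only [Int.negSucc_eq]
    ring

theorem ord_neg_one (P : Place k F) : P.ord (-1 : F) = 0 := by
  have h := P.ord_mul (-1) (-1) (by simp) (by simp)
  rw [neg_mul_neg, mul_one, P.ord_one] at h
  omega

theorem ord_neg (P : Place k F) (a : F) : P.ord (-a) = P.ord a := by
  by_cases ha : a = 0
  · subst ha; simp
  have h := P.ord_mul (-1) a (by simp) ha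
  rw [neg_one_mul, P.ord_neg_one, zero_add] at h
  exact h

/-- `f` is `0` or has order at least `n` at `P` -/
def Ge (P : Place k F) (n : ℤ) (f : F) : Prop := f = 0 ∨ n ≤ P.ord f

theorem ge_zero (P : Place k F) (n : ℤ) : P.Ge n 0 := Or.inl rfl

theorem Ge.le {P : Place k F} {n : ℤ} {f : F} (h : P.Ge n f) (hf : f ≠ 0) : n ≤ P.ord f :=
  h.resolve_left hf

theorem ge_iff {P : Place k F} {n : ℤ} {f : F} (hf : f ≠ 0) : P.Ge n f ↔ n ≤ P.ord f :=
  ⟨fun h => h.le hf, fun h => Or.inr h⟩

theorem ge_ord (P : Place k F) (f : F) : P.Ge (P.ord f) f := Or.inr le_rfl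

theorem Ge.mono {P : Place k F} {m n : ℤ} {f : F} (h : P.Ge n f) (hmn : m ≤ n) : P.Ge m f :=
  h.imp id fun h => hmn.trans h

theorem Ge.neg {P : Place k F} {n : ℤ} {f : F} (h : P.Ge n f) : P.Ge n (-f) := by
  rcases h with rfl | h
  · left; simp
  · right; rwa [P.ord_neg]

theorem Ge.add {P : Place k F} {n : ℤ} {f g : F} (hf : P.Ge n f) (hg : P.Ge n g) :
    P.Ge n (f + g) := by
  by_cases hf0 : f = 0
  · subst hf0; simpa using hg
  by_cases hg0 : g = 0
  · subst hg0; simpa using hf
  by_cases h : f + g = 0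
  · exact Or.inl h
  · exact Or.inr ((le_min (hf.le hf0) (hg.le hg0)).trans (P.ord_add f g hf0 hg0 h))

theorem Ge.sub {P : Place k F} {n : ℤ} {f g : F} (hf : P.Ge n f) (hg : P.Ge n g) :
    P.Ge n (f - g) := by
  rw [sub_eq_add_neg]; exact hf.add hg.neg

theorem Ge.mul {P : Place k F} {m n : ℤ} {f g : F} (hf : P.Ge m f) (hg : P.Ge n g) :
    P.Ge (m + n) (f * g) := by
  by_cases hf0 : f = 0
  · subst hf0; left; simp
  by_cases hg0 : g = 0
  · subst hg0; left; simp
  · right
    rw [P.ord_mul f g hf0 hg0]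
    exact add_le_add (hf.le hf0) (hg.le hg0)

theorem Ge.sum {P : Place k F} {n : ℤ} {ι : Type} (s : Finset ι) (f : ι → F)
    (h : ∀ i ∈ s, P.Ge n (f i)) : P.Ge n (∑ i ∈ s, f i) := by
  classical
  induction s using Finset.induction_on with
  | empty => simpa using P.ge_zero n
  | insert a s ha ih =>
    rw [Finset.sum_insert ha]
    exact (h a (Finset.mem_insert_self a s)).add
      (ih fun i hi => h i (Finset.mem_insert_of_mem hi))

theorem ge_const (P : Place k F) (c : k) : P.Ge 0 (algebraMap k F c) := by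
  by_cases hc : c = 0
  · left; simp [hc]
  · right; rw [P.ord_const c hc]

theorem Ge.const_mul {P : Place k F} {n : ℤ} {f : F} (c : k) (hf : P.Ge n f) :
    P.Ge n (algebraMap k F c * f) := by
  simpa using (P.ge_const c).mul hf

theorem Ge.smul {P : Place k F} {n : ℤ} {f : F} (c : k) (hf : P.Ge n f) :
    P.Ge n (c • f) := by
  rw [Algebra.smul_def]; exact hf.const_mul c

theorem Ge.pow {P : Place k F} {n : ℤ} {f : F} (hf : P.Ge n f) (m : ℕ) :
    P.Ge (m * n) (f ^ m) := by
  by_cases hf0 : f = 0
  · subst hf0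
    cases m with
    | zero =>
      right
      rw [pow_zero, P.ord_one]
      simp
    | succ m => left; simp
  · right
    rw [P.ord_pow hf0]
    exact mul_le_mul_of_nonneg_left (hf.le hf0) (Int.natCast_nonneg m)

/-- the order of a sum of two elements of different orders -/
theorem ord_add_eq {P : Place k F} {f g : F} (hf : f ≠ 0) (hg : P.Ge (P.ord f + 1) g) :
    f + g ≠ 0 ∧ P.ord (f + g) = P.ord f := by
  by_cases hg0 : g = 0
  · subst hg0; simpa using hf
  have h1 := hg.le hg0
  have hne : f + g ≠ 0 := by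
    intro h
    have : f = -g := eq_neg_of_add_eq_zero_left h
    rw [this, P.ord_neg] at h1
    omega
  refine ⟨hne, ?_⟩
  have h2 := P.ord_add f g hf hg0 hne
  have h3 : (f + g) + -g ≠ 0 := by simpa using hf
  have h4 := P.ord_add (f + g) (-g) hne (neg_ne_zero.mpr hg0) h3
  rw [add_neg_cancel_right, P.ord_neg] at h4
  rcases min_le_iff.mp h2 with h5 | h5 <;> rcases min_le_iff.mp h4 with h6 | h6 <;> omega

/-- `t` is a uniformiser at `P` -/
def Unif (P : Place k F) (t : F) : Prop := t ≠ 0 ∧ P.ord t = 1

/-- a chosen uniformiser -/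
def unif (P : Place k F) : F := P.exists_uniformizer.choose

theorem unif_spec (P : Place k F) : P.Unif P.unif := P.exists_uniformizer.choose_spec

/-- the order at `P` of the differential `dx`, computed with a derivation `D ≠ 0` of `F / k`:
`dx / dt = D x / D t` (it does not depend on `D`) -/
def dord (P : Place k F) (D : Derivation k F F) (x : F) : ℤ := P.ord (D x) - P.ord (D P.unif)

end Place

/-- the `k`-algebra of the functions without poles outside `P₀` -/
def Reg (P₀ : Place k F) : Subalgebra k F where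
  carrier := {f | ∀ P : Place k F, P ≠ P₀ → P.Ge 0 f}
  mul_mem' := fun {a b} ha hb P hP => by simpa using (ha P hP).mul (hb P hP)
  add_mem' := fun {a b} ha hb P hP => (ha P hP).add (hb P hP)
  algebraMap_mem' := fun c P _ => P.ge_const c

/-- `x` is a separating element: transcendental and `F / k(x)` is finite separable -/
def Sep (k : Type) {F : Type} [Field k] [Field F] [Algebra k F] (x : F) : Prop :=
  Transcendental k x ∧ FiniteDimensional (IntermediateField.adjoin k ({x} : Set F)) F ∧
    Algebra.IsSeparable (IntermediateField.adjoin k ({x} : Set F)) F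

/-- the degree `[F : k(x)]` -/
def degx (k : Type) {F : Type} [Field k] [Field F] [Algebra k F] (x : F) : ℕ :=
  Module.finrank (IntermediateField.adjoin k ({x} : Set F)) F

/-- the principal divisor of `f` (of finite support for a function field, module QV4) -/
def prin {k F : Type} [Field k] [Field F] [Algebra k F] (f : F) : Place k F →₀ ℤ :=
  if h : (Function.support fun P : Place k F => P.ord f).Finite then
    Finsupp.ofSupportFinite (fun P : Place k F => P.ord f) h else 0

/-- `l(D)` -/
def ell {k F : Type} [Field k] [Field F] [Algebra k F] (D : Place k F →₀ ℤ) : ℕ :=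
  Module.finrank k (RR D)

/-- one-point data: `x` has its only pole at `P₀`, of order `n > 0`; the `u i`, `i < n`, are regular outside
`P₀` with pole orders `μ i = i` modulo `n`, and generate `Reg P₀` as a `k[x]`-module (a basis in fact). -/
structure OneP {k F : Type} [Field k] [Field F] [Algebra k F] (P₀ : Place k F) (x : F) (n : ℕ)
    (u : Fin n → F) (μ : Fin n → ℕ) : Prop where
  pos : 0 < n
  xreg : x ∈ Reg P₀
  xord : P₀.ord x = -(n : ℤ)
  reg : ∀ i, u i ∈ Reg P₀
  ne : ∀ i, u i ≠ 0
  ord : ∀ i, P₀.ord (u i) = -(μ i : ℤ)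
  res : ∀ i, μ i % n = (i : ℕ)
  span : ∀ f ∈ Reg P₀, ∃ φ : Fin n → Polynomial k, f = ∑ i, Polynomial.aeval x (φ i) * u i

/-- `A` is the matrix of the multiplication by `h` in the `k[x]`-basis `u` -/
def MulMat {k F : Type} [Field k] [Field F] [Algebra k F] (x : F) {n : ℕ} (u : Fin n → F) (h : F)
    (A : Matrix (Fin n) (Fin n) (Polynomial k)) : Prop :=
  ∀ j, h * u j = ∑ i, Polynomial.aeval x (A i j) * u i

end

end Pool.Agent.helper53.AU
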