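import Pool.Agent.helper87.AU.SpecQ2

/-!
# au:QG: the term of `Ram`
-/

namespace Pool.Agent.helper53.AU

open scoped Classical

noncomputable section

variable {k F : Type} [Field k] [Field F] [Algebra k F]

/-- the places with nontrivial stabiliser in `G` -/
def QG_X (G : Subgroup (F ≃ₐ[k] F)) : Type := {P : Place k F // ∃ s : G, s ≠ 1 ∧ (s : F ≃ₐ[k] F) • P = P}

instance QG_act (G : Subgroup (F ≃ₐ[k] F)) : MulAction G (QG_X G) where
  smul a x := ⟨(a : F ≃ₐ[k] F) • x.1, by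
    obtain ⟨s, hs, hs'⟩ := x.2
    refine ⟨a * s * a⁻¹, ?_, ?_⟩
    · intro h
      apply hs
      have h2 : a * s = a := by
        have := mul_inv_eq_one.mp h
        exact this
      exact mul_left_cancel (a := a) (by rw [h2, mul_one])
    · rw [Subgroup.coe_mul, Subgroup.coe_mul, Subgroup.coe_inv, mul_smul, mul_smul, inv_smul_smul,
        hs']⟩
  one_smul x := Subtype.ext (one_smul _ x.1)
  mul_smul a b x := Subtype.ext (mul_smul (a : F ≃ₐ[k] F) (b : F ≃ₐ[k] F) x.1)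

theorem QG_smul_val (G : Subgroup (F ≃ₐ[k] F)) (a : G) (x : QG_X G) :
    (a • x).1 = (a : F ≃ₐ[k] F) • x.1 := rfl

theorem QG_fix (G : Subgroup (F ≃ₐ[k] F)) (a : G) (x : QG_X G) :
    a • x = x ↔ (a : F ≃ₐ[k] F) • x.1 = x.1 := by
  rw [← QG_smul_val]
  exact Subtype.ext_iff

/-- the jumps -/
def QG_i (G : Subgroup (F ≃ₐ[k] F)) (x : QG_X G) (s : G) : ℕ :=
  if s ≠ 1 ∧ s • x = x then x.1.jump (s : F ≃ₐ[k] F) else 0

theorem QG_i_eq (G : Subgroup (F ≃ₐ[k] F)) (x : QG_X G) (s : G) (h1 : s ≠ 1) (h2 : s • x = x) :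
    QG_i G x s = x.1.jump (s : F ≃ₐ[k] F) := if_pos ⟨h1, h2⟩

theorem QG_finite (hF11 : ∀ s : F ≃ₐ[k] F, s ≠ 1 → {P : Place k F | s • P = P}.Finite)
    (G : Subgroup (F ≃ₐ[k] F)) [Finite G] : Finite (QG_X G) := by
  have h1 : {P : Place k F | ∃ s : G, s ≠ 1 ∧ (s : F ≃ₐ[k] F) • P = P}.Finite := by
    have h2 : {P : Place k F | ∃ s : G, s ≠ 1 ∧ (s : F ≃ₐ[k] F) • P = P} ⊆
        ⋃ s : {s : G // s ≠ 1}, {P : Place k F | ((s : G) : F ≃ₐ[k] F) • P = P} := by
      rintro P ⟨s, hs, hs'⟩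
      exact Set.mem_iUnion.mpr ⟨⟨s, hs⟩, hs'⟩
    refine Set.Finite.subset (Set.finite_iUnion fun s => hF11 _ ?_) h2
    intro h
    exact s.2 (Subtype.ext h)
  exact h1.to_subtype

/-- the character -/
def QG_θ (h1 : ∀ (P : Place k F) (s : F ≃ₐ[k] F), s • P = P → P.theta s ≠ 0)
    (h2 : ∀ (P : Place k F), P.theta (1 : F ≃ₐ[k] F) = 1)
    (h3 : ∀ (P : Place k F) (s s' : F ≃ₐ[k] F), s • P = P → s' • P = P →
      P.theta (s * s') = P.theta s * P.theta s')
    (G : Subgroup (F ≃ₐ[k] F)) (x : QG_X G) : MulAction.stabilizer G x →* kˣ where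
  toFun s := Units.mk0 (x.1.theta ((s : G) : F ≃ₐ[k] F)) (h1 _ _ ((QG_fix G s x).mp s.2))
  map_one' := Units.ext (h2 x.1)
  map_mul' s s' := Units.ext (h3 x.1 _ _ ((QG_fix G s x).mp s.2) ((QG_fix G s' x).mp s'.2))

/-- change of the index set of the inner sums -/
theorem QG_inner (G : Subgroup (F ≃ₐ[k] F)) [Fintype G] (H : Subgroup G) (f : (F ≃ₐ[k] F) → ℤ) :
    (∑ᶠ s : (H.map G.subtype), f (s : F ≃ₐ[k] F)) =
      ∑ s ∈ Finset.univ.filter (fun s : G => s ∈ H), f (s : F ≃ₐ[k] F) := by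
  have h1 : (∑ᶠ s : (H.map G.subtype), f (s : F ≃ₐ[k] F)) =
      ∑ᶠ s ∈ ((H.map G.subtype : Subgroup (F ≃ₐ[k] F)) : Set (F ≃ₐ[k] F)), f s :=
    finsum_set_coe_eq_finsum_mem (f := f) _
  rw [h1]
  have h2 : ((H.map G.subtype : Subgroup (F ≃ₐ[k] F)) : Set (F ≃ₐ[k] F)) =
      (fun s : G => (s : F ≃ₐ[k] F)) '' {s : G | s ∈ H} := by
    ext s
    simp
  rw [h2, finsum_mem_image (Subtype.val_injective.injOn)]
  rw [finsum_mem_eq_finite_toFinset_sum _ (Set.toFinite _)]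
  refine Finset.sum_congr ?_ fun _ _ => rfl
  ext s
  rw [Set.Finite.mem_toFinset, Finset.mem_filter]
  exact ⟨fun h => ⟨Finset.mem_univ s, h⟩, fun h => h.2⟩

theorem QG_innerN (G : Subgroup (F ≃ₐ[k] F)) [Fintype G] (H : Subgroup G) (f : (F ≃ₐ[k] F) → ℕ) :
    (∑ᶠ s : (H.map G.subtype), f (s : F ≃ₐ[k] F)) =
      ∑ s ∈ Finset.univ.filter (fun s : G => s ∈ H), f (s : F ≃ₐ[k] F) := by
  have h1 : (∑ᶠ s : (H.map G.subtype), f (s : F ≃ₐ[k] F)) =
      ∑ᶠ s ∈ ((H.map G.subtype : Subgroup (F ≃ₐ[k] F)) : Set (F ≃ₐ[k] F)), f s :=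
    finsum_set_coe_eq_finsum_mem (f := f) _
  rw [h1]
  have h2 : ((H.map G.subtype : Subgroup (F ≃ₐ[k] F)) : Set (F ≃ₐ[k] F)) =
      (fun s : G => (s : F ≃ₐ[k] F)) '' {s : G | s ∈ H} := by
    ext s
    simp
  rw [h2, finsum_mem_image (Subtype.val_injective.injOn)]
  rw [finsum_mem_eq_finite_toFinset_sum _ (Set.toFinite _)]
  refine Finset.sum_congr ?_ fun _ _ => rfl
  ext s
  rw [Set.Finite.mem_toFinset, Finset.mem_filter]
  exact ⟨fun h => ⟨Finset.mem_univ s, h⟩, fun h => h.2⟩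

theorem QG_card (G : Subgroup (F ≃ₐ[k] F)) (H : Subgroup G) :
    Nat.card (H.map G.subtype) = Nat.card H :=
  Nat.card_congr (Subgroup.equivMapOfInjective H G.subtype G.subtype_injective).symm.toEquiv

theorem QG (hF2 : QF2_stmt) (hF3 : QF3_stmt) (hF6 : QF6_stmt) (hF7 : QF7_stmt) (hF10 : QF10_stmt)
    (hF11 : QF11_stmt) (hH4 : QH4_stmt) (hH5 : QH5_stmt) : QG_stmt := by
  intro k F _ _ _ _ _ g hF hg _ G _
  have hF2 := hF2 k F hF
  have hF3 := hF3 k F hF
  have hF6 := hF6 k F hF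
  have hF7 := hF7 k F hF
  have hF10 := hF10 k F hF G inferInstance
  have hF11 := hF11 k F hF
  have t1 : ∀ (P : Place k F) (s : F ≃ₐ[k] F), s • P = P → P.theta s ≠ 0 :=
    fun P s h => (hF2 P s h).1
  have t2 : ∀ (P : Place k F), P.theta (1 : F ≃ₐ[k] F) = 1 :=
    fun P => (hF2 P 1 (one_smul _ P)).2.2.2.mpr (Or.inl rfl)
  have t3 : ∀ (P : Place k F) (s s' : F ≃ₐ[k] F), s • P = P → s' • P = P →
      P.theta (s * s') = P.theta s * P.theta s' := fun P => (hF3 P).1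
  have hfinX : Finite (QG_X G) := QG_finite hF11 G
  have ne1 : ∀ s : G, s ≠ 1 → (s : F ≃ₐ[k] F) ≠ 1 := fun s hs h => hs (Subtype.ext h)
  -- the wild group
  have hker : ∀ (x : QG_X G) (s : F ≃ₐ[k] F),
      s ∈ ((((QG_θ t1 t2 t3 G x).ker).map (MulAction.stabilizer G x).subtype).map G.subtype) ↔
        s ∈ G ∧ s • x.1 = x.1 ∧ x.1.theta s = 1 := by
    intro x s
    constructor
    · rintro ⟨a, ⟨b, hb, rfl⟩, rfl⟩
      refine ⟨SetLike.coe_mem _, (QG_fix G b x).mp b.2, ?_⟩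
      have h1 : QG_θ t1 t2 t3 G x b = 1 := hb
      have h2 := congrArg Units.val h1
      exact h2
    · rintro ⟨h1, h2, h3⟩
      have h4 : (⟨s, h1⟩ : G) ∈ MulAction.stabilizer G x :=
        (QG_fix G ⟨s, h1⟩ x).mpr h2
      refine ⟨⟨s, h1⟩, ⟨⟨⟨s, h1⟩, h4⟩, ?_, rfl⟩, rfl⟩
      exact Units.ext h3
  let iX : Fintype (QG_X G) := Fintype.ofFinite _
  refine ⟨QG_X G, QG_act G, inferInstance, ⟨?_⟩⟩
  refine
    { i := QG_i G
      θ := QG_θ t1 t2 t3 G
      conj := ?_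
      inv := ?_
      ultra := ?_
      tame := ?_
      wild := ?_
      lead := ?_
      θconj := ?_
      cong3 := ?_
      prime3 := ?_
      herbrand := ?_
      RH := ?_ }
  · -- conj
    intro a s x
    by_cases h : s ≠ 1 ∧ s • x = x
    · have h1 : a * s * a⁻¹ ≠ 1 := by
        intro h2
        apply h.1
        have h3 : a * s = a := mul_inv_eq_one.mp h2
        exact mul_left_cancel (a := a) (by rw [h3, mul_one])
      have h2 : (a * s * a⁻¹) • (a • x) = a • x := by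
        rw [mul_smul, mul_smul, inv_smul_smul, h.2]
      rw [QG_i_eq G _ _ h1 h2, QG_i_eq G _ _ h.1 h.2]
      exact ((hF3 x.1).2.1 (a : F ≃ₐ[k] F) (s : F ≃ₐ[k] F) ((QG_fix G s x).mp h.2)).2
    · have h1 : ¬ (a * s * a⁻¹ ≠ 1 ∧ (a * s * a⁻¹) • (a • x) = a • x) := by
        rintro ⟨h2, h3⟩
        apply h
        constructor
        · rintro rfl
          exact h2 (by simp)
        · rw [mul_smul, mul_smul, inv_smul_smul] at h3
          exact (smul_left_cancel_iff a).mp h3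
      unfold QG_i
      rw [if_neg h, if_neg h1]
  · -- inv
    intro x s hs
    by_cases h : s = 1
    · subst h; simp
    · have h1 : s⁻¹ ≠ 1 := inv_ne_one.mpr h
      have h2 : s⁻¹ • x = x := inv_smul_eq_iff.mpr hs.symm
      rw [QG_i_eq G x _ h1 h2, QG_i_eq G x _ h hs]
      exact (hF3 x.1).2.2.1 _ ((QG_fix G s x).mp hs)
  · -- ultra
    intro x s t hs ht hs1 ht1 hst
    have h1 : (s * t) • x = x := by rw [mul_smul, ht, hs]
    rw [QG_i_eq G x _ hs1 hs, QG_i_eq G x _ ht1 ht, QG_i_eq G x _ hst h1]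
    exact (hF3 x.1).2.2.2 _ _ ((QG_fix G s x).mp hs) ((QG_fix G t x).mp ht) (ne1 s hs1)
      (ne1 t ht1) (fun h => hst (Subtype.ext h))
  · -- tame
    intro x s
    have hfix := (QG_fix G (s : G) x).mp s.2
    have h1 := (hF2 x.1 ((s : G) : F ≃ₐ[k] F) hfix).2.2.2
    have h2 : QG_θ t1 t2 t3 G x s = 1 ↔ x.1.theta ((s : G) : F ≃ₐ[k] F) = 1 := by
      constructor
      · intro h; exact congrArg Units.val h
      · intro h; exact Units.ext h
    rw [h2, h1]
    constructor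
    · rintro (h | h)
      · left; exact Subtype.ext h
      · by_cases h3 : (s : G) = 1
        · exact Or.inl h3
        · right
          rw [QG_i_eq G x _ h3 s.2]
          exact h
    · rintro (h | h)
      · left; rw [h]; rfl
      · by_cases h3 : (s : G) = 1
        · left; rw [h3]; rfl
        · right
          rw [QG_i_eq G x _ h3 s.2] at h
          exact h
  · -- wild
    intro x s hs hs1 hi
    rw [QG_i_eq G x _ hs1 hs] at hi
    obtain ⟨n, hn⟩ := (hF7 x.1 (s : F ≃ₐ[k] F) ((QG_fix G s x).mp hs) (ne1 s hs1) hi).2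
      ⟨Nat.card G, Nat.card_pos, by
        rw [← Subgroup.coe_pow, pow_card_eq_one', Subgroup.coe_one]⟩
    exact ⟨n, Subtype.ext (by simpa using hn)⟩
  · -- lead
    intro x c s hs hs1 hi
    have hi' := hi
    rw [QG_i_eq G x _ hs1 hs] at hi
    have hc := (QG_fix G (c : G) x).mp c.2
    have h1 := hF6 x.1 ((c : G) : F ≃ₐ[k] F) (s : F ≃ₐ[k] F) hc ((QG_fix G s x).mp hs) (ne1 s hs1) hi
    have h2 : (QG_θ t1 t2 t3 G x c) ^ (QG_i G x s) = 1 ↔
        x.1.theta ((c : G) : F ≃ₐ[k] F) ^ (x.1.jump (s : F ≃ₐ[k] F)) = 1 := by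
      rw [QG_i_eq G x _ hs1 hs]
      constructor
      · intro h
        have := congrArg Units.val h
        rw [Units.val_pow_eq_pow_val] at this
        exact this
      · intro h
        apply Units.ext
        rw [Units.val_pow_eq_pow_val]
        exact h
    rw [h2, h1]
    have hfix : ((c : G) * s * (c : G)⁻¹ * s⁻¹) • x = x := by
      have e1 : (c : G) • x = x := c.2
      have e2 : (c : G)⁻¹ • x = x := inv_smul_eq_iff.mpr e1.symm
      have e3 : s⁻¹ • x = x := inv_smul_eq_iff.mpr hs.symm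
      rw [mul_smul, mul_smul, mul_smul, e3, e2, hs, e1]
    rw [QG_i_eq G x _ hs1 hs]
    constructor
    · rintro (h | h)
      · left; exact Subtype.ext (by simpa using h)
      · by_cases h3 : (c : G) * s * (c : G)⁻¹ * s⁻¹ = 1
        · exact Or.inl h3
        · right
          rw [QG_i_eq G x _ h3 hfix]
          simpa using h
    · rintro (h | h)
      · left
        have := congrArg (fun a : G => (a : F ≃ₐ[k] F)) h
        simpa using this
      · by_cases h3 : (c : G) * s * (c : G)⁻¹ * s⁻¹ = 1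
        · left
          have := congrArg (fun a : G => (a : F ≃ₐ[k] F)) h3
          simpa using this
        · right
          rw [QG_i_eq G x _ h3 hfix] at h
          simpa using h
  · -- θconj
    intro a x c h
    apply Units.ext
    have := ((hF3 x.1).2.1 (a : F ≃ₐ[k] F) ((c : G) : F ≃ₐ[k] F) ((QG_fix G (c : G) x).mp c.2)).1
    exact this
  · -- cong3
    intro x s t hs ht hs1 ht1 his hit
    rw [QG_i_eq G x _ hs1 hs] at his ⊢
    rw [QG_i_eq G x _ ht1 ht] at hit ⊢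
    exact (hF10 x.1 _ _ s.2 t.2 ((QG_fix G s x).mp hs) ((QG_fix G t x).mp ht) (ne1 s hs1)
      (ne1 t ht1) his hit).1
  · -- prime3
    intro x s hs hs1 his
    rw [QG_i_eq G x _ hs1 hs] at his ⊢
    exact (hF10 x.1 _ _ s.2 s.2 ((QG_fix G s x).mp hs) ((QG_fix G s x).mp hs) (ne1 s hs1)
      (ne1 s hs1) his his).2
  · -- herbrand
    intro x Q hQ hnorm hcard
    obtain ⟨j, hj1, hj2, hj3⟩ := hH5 k F hF G
      ((((QG_θ t1 t2 t3 G x).ker).map (MulAction.stabilizer G x).subtype).map G.subtype)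
      (Q.map G.subtype) inferInstance x.1 (hker x) (Subgroup.map_mono hQ) (by
        rintro c hc hcP q ⟨q', hq', rfl⟩
        refine ⟨⟨c, hc⟩ * q' * ⟨c, hc⟩⁻¹, hnorm ⟨c, hc⟩ ((QG_fix G ⟨c, hc⟩ x).mpr hcP) q' hq', ?_⟩
        simp) (by rw [QG_card, QG_card]; exact hcard)
    have hmemQ : ∀ s : G, ((s : F ≃ₐ[k] F) ∈ Q.map G.subtype ↔ s ∈ Q) := by
      intro s
      constructor
      · rintro ⟨a, ha, hb⟩
        have : a = s := Subtype.ext hb
        rwa [← this]
      · intro h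
        exact ⟨s, h, rfl⟩
    refine ⟨j, hj1, ?_, ?_⟩
    · rw [QG_card] at hj2
      rw [← hj2]
      have h1 := QG_innerN G (((QG_θ t1 t2 t3 G x).ker).map (MulAction.stabilizer G x).subtype)
        (fun s => if s ∉ Q.map G.subtype then x.1.jump s else 0)
      refine Eq.trans ?_ h1.symm
      rw [← Finset.filter_filter, Finset.sum_filter]
      refine Finset.sum_congr rfl fun s hs => ?_
      have hsW := (Finset.mem_filter.mp hs).2
      by_cases hsQ : s ∈ Q
      · rw [if_neg (not_not.mpr hsQ), if_neg (not_not.mpr ((hmemQ s).mpr hsQ))]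
      · rw [if_pos hsQ, if_pos (fun h => hsQ ((hmemQ s).mp h))]
        have hs1 : s ≠ 1 := fun h => hsQ (by rw [h]; exact one_mem Q)
        have hsx : s • x = x := by
          obtain ⟨b, _, hb⟩ := hsW
          rw [← hb]
          exact b.2
        exact QG_i_eq G x s hs1 hsx
    · intro c
      have hc := (QG_fix G (c : G) x).mp c.2
      have h1 := hj3 ((c : G) : F ≃ₐ[k] F) (c : G).2 hc
      rw [QG_card] at h1
      have h2 : (QG_θ t1 t2 t3 G x c) ^ (Nat.card Q * j) = 1 ↔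
          x.1.theta ((c : G) : F ≃ₐ[k] F) ^ (Nat.card Q * j) = 1 := by
        constructor
        · intro h
          have := congrArg Units.val h
          rw [Units.val_pow_eq_pow_val] at this
          exact this
        · intro h
          apply Units.ext
          rw [Units.val_pow_eq_pow_val]
          exact h
      rw [h2, h1]
      constructor
      · intro h s hs
        have h3 := h (s : F ≃ₐ[k] F) ⟨s, hs, rfl⟩
        have h4 : (((c : G) * s * (c : G)⁻¹ * s⁻¹ : G) : F ≃ₐ[k] F) ∈ Q.map G.subtype := by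
          simpa using h3
        exact (hmemQ _).mp h4
      · rintro h s ⟨s', hs', rfl⟩
        have h3 := (hmemQ _).mpr (h s' hs')
        simpa using h3
  · -- RH
    intro H
    obtain ⟨γ, hγ⟩ := hH4 k F hF g hg (H.map G.subtype) (Finite.of_injective
      (Subgroup.equivMapOfInjective H G.subtype G.subtype_injective).symm
      (Subgroup.equivMapOfInjective H G.subtype G.subtype_injective).symm.injective)
    refine ⟨γ, ?_⟩
    rw [hγ, QG_card]
    congr 1
    have h1 : ∀ P : Place k F, (∑ᶠ s : (H.map G.subtype),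
        if (s : F ≃ₐ[k] F) ≠ 1 ∧ (s : F ≃ₐ[k] F) • P = P then ((P.jump s : ℤ) + 1) else 0) =
        ∑ s ∈ Finset.univ.filter (fun s : G => s ∈ H),
          if (s : F ≃ₐ[k] F) ≠ 1 ∧ (s : F ≃ₐ[k] F) • P = P then ((P.jump (s : F ≃ₐ[k] F) : ℤ) + 1)
          else 0 := by
      intro P
      exact QG_inner G H (fun s => if s ≠ 1 ∧ s • P = P then ((P.jump s : ℤ) + 1) else 0)
    rw [finsum_congr h1]
    have h2 : ∀ x : QG_X G, (∑ s ∈ Finset.univ.filter (fun s : G => s ∈ H ∧ s ≠ 1 ∧ s • x = x),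
        ((QG_i G x s : ℤ) + 1)) = ∑ s ∈ Finset.univ.filter (fun s : G => s ∈ H),
          if (s : F ≃ₐ[k] F) ≠ 1 ∧ (s : F ≃ₐ[k] F) • x.1 = x.1 then
            ((x.1.jump (s : F ≃ₐ[k] F) : ℤ) + 1) else 0 := by
      intro x
      rw [← Finset.filter_filter, Finset.sum_filter]
      refine Finset.sum_congr rfl fun s _ => ?_
      have hiff : (s ≠ 1 ∧ s • x = x) ↔ ((s : F ≃ₐ[k] F) ≠ 1 ∧ (s : F ≃ₐ[k] F) • x.1 = x.1) := by
        rw [QG_fix]
        refine and_congr ?_ Iff.rfl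
        constructor
        · exact ne1 s
        · intro h h'
          exact h (by rw [h']; rfl)
      by_cases h : s ≠ 1 ∧ s • x = x
      · rw [if_pos h, if_pos (hiff.mp h), QG_i_eq G x s h.1 h.2]
      · rw [if_neg h, if_neg (fun h' => h (hiff.mpr h'))]
    refine Eq.trans (b := ∑ x : QG_X G, ∑ s ∈ Finset.univ.filter (fun s : G => s ∈ H),
          if (s : F ≃ₐ[k] F) ≠ 1 ∧ (s : F ≃ₐ[k] F) • x.1 = x.1 then
            ((x.1.jump (s : F ≃ₐ[k] F) : ℤ) + 1) else 0) ?_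
          (Finset.sum_congr rfl fun x _ => by convert (h2 x).symm)
    rw [← finsum_eq_sum_of_fintype]
    have h3 : (∑ᶠ x : QG_X G, ∑ s ∈ Finset.univ.filter (fun s : G => s ∈ H),
          if (s : F ≃ₐ[k] F) ≠ 1 ∧ (s : F ≃ₐ[k] F) • x.1 = x.1 then
            ((x.1.jump (s : F ≃ₐ[k] F) : ℤ) + 1) else 0) =
        ∑ᶠ P ∈ {P : Place k F | ∃ s : G, s ≠ 1 ∧ (s : F ≃ₐ[k] F) • P = P},
          ∑ s ∈ Finset.univ.filter (fun s : G => s ∈ H),
          if (s : F ≃ₐ[k] F) ≠ 1 ∧ (s : F ≃ₐ[k] F) • P = P then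
            ((P.jump (s : F ≃ₐ[k] F) : ℤ) + 1) else 0 :=
      finsum_set_coe_eq_finsum_mem (f := fun P : Place k F =>
        ∑ s ∈ Finset.univ.filter (fun s : G => s ∈ H),
          if (s : F ≃ₐ[k] F) ≠ 1 ∧ (s : F ≃ₐ[k] F) • P = P then
            ((P.jump (s : F ≃ₐ[k] F) : ℤ) + 1) else 0)
        {P : Place k F | ∃ s : G, s ≠ 1 ∧ (s : F ≃ₐ[k] F) • P = P}
    rw [h3, finsum_mem_def]
    refine finsum_congr fun P => ?_
    by_cases hP : P ∈ {P : Place k F | ∃ s : G, s ≠ 1 ∧ (s : F ≃ₐ[k] F) • P = P}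
    · rw [Set.indicator_of_mem hP]
    · rw [Set.indicator_of_notMem hP]
      refine Finset.sum_eq_zero fun s _ => ?_
      rw [if_neg]
      rintro ⟨h4, h5⟩
      exact hP ⟨s, fun h6 => h4 (by rw [h6]; rfl), h5⟩

end

end Pool.Agent.helper53.AU
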